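import Pool.Agent.Q54.PX.Defs

/-!
# Exactness
-/

set_option autoImplicit false

universe v u

namespace Q54.PX

open CategoryTheory Limits

variable {𝒜 : Type u} [Category.{v} 𝒜] [Abelian 𝒜]

lemma Ex.w {M N P : 𝒜} {f : M ⟶ N} {g : N ⟶ P} (h : Ex f g) : f ≫ g = 0 := h.1

lemma Ex.transport {M N P M' N' P' : 𝒜} {f : M ⟶ N} {g : N ⟶ P} {f' : M' ⟶ N'} {g' : N' ⟶ P'} (h : Ex f g)
    (a : M ≅ M') (b : N ≅ N') (c : P ≅ P') (h1 : a.hom ≫ f' = f ≫ b.hom) (h2 : b.hom ≫ g' = g ≫ c.hom) :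
    Ex f' g' := by
  obtain ⟨w, hw⟩ := h
  have w' : f' ≫ g' = 0 := by
    have h3 : a.hom ≫ f' ≫ g' = 0 := by
      rw [← Category.assoc, h1, Category.assoc, h2, ← Category.assoc, w, zero_comp]
    rw [← cancel_epi a.hom, h3, comp_zero]
  exact ⟨w', ShortComplex.exact_of_iso (ShortComplex.isoMk a b c h1 h2 :
    ShortComplex.mk f g w ≅ ShortComplex.mk f' g' w') hw⟩

lemma Ex.mono {M N P : 𝒜} {f : M ⟶ N} {g : N ⟶ P} (h : Ex f g) (hf : f = 0) : Mono g :=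
  h.2.mono_g hf

lemma Ex.epi {M N P : 𝒜} {f : M ⟶ N} {g : N ⟶ P} (h : Ex f g) (hg : g = 0) : Epi f :=
  h.2.epi_f hg

lemma Ex.eq_zero_of_epi {M N P : 𝒜} {f : M ⟶ N} {g : N ⟶ P} (h : Ex f g) [Epi f] : g = 0 := by
  rw [← cancel_epi f, h.w, comp_zero]

lemma Ex.eq_zero_of_mono {M N P : 𝒜} {f : M ⟶ N} {g : N ⟶ P} (h : Ex f g) [Mono g] : f = 0 := by
  rw [← cancel_mono g, h.w, zero_comp]

/-- Lifting through a monomorphism. -/
lemma Ex.exists_lift {M N P Q : 𝒜} {f : M ⟶ N} {g : N ⟶ P} (h : Ex f g) [Mono f] (x : Q ⟶ N) (hx : x ≫ g = 0) :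
    ∃ y : Q ⟶ M, y ≫ f = x := by
  obtain ⟨w, hw⟩ := h
  have : Mono (ShortComplex.mk f g w).f := ‹Mono f›
  exact ⟨hw.lift x hx, hw.lift_f x hx⟩

/-- Isomorphic maps have isomorphic kernels. -/
lemma ker_iso {K M N K' M' : 𝒜} {f : K ⟶ M} {g : M ⟶ N} {f' : K' ⟶ M'} {g' : M' ⟶ N} (h : Ex f g) (h' : Ex f' g')
    [Mono f] [Mono f'] (e : M ≅ M') (he : e.hom ≫ g' = g) : Nonempty (K ≅ K') := by
  obtain ⟨x, hx⟩ := h'.exists_lift (f ≫ e.hom) (by rw [Category.assoc, he, h.w])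
  obtain ⟨y, hy⟩ := h.exists_lift (f' ≫ e.inv) (by rw [Category.assoc, ← he, e.inv_hom_id_assoc, h'.w])
  refine ⟨⟨x, y, ?_, ?_⟩⟩
  · rw [← cancel_mono f, Category.assoc, hy, ← Category.assoc, hx, Category.assoc, e.hom_inv_id,
      Category.comp_id, Category.id_comp]
  · rw [← cancel_mono f', Category.assoc, hx, ← Category.assoc, hy, Category.assoc, e.inv_hom_id,
      Category.comp_id, Category.id_comp]

/-- A retract from a split sequence. -/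
lemma Ex.retract {M N P : 𝒜} {f : M ⟶ N} {g : N ⟶ P} (h : Ex f g) [Mono f] (s : P ⟶ N) (hs : s ≫ g = 𝟙 P) :
    Nonempty (Retract M N) := by
  obtain ⟨r, hr⟩ := h.exists_lift (𝟙 N - g ≫ s) (by
    rw [Preadditive.sub_comp, Category.assoc, hs, Category.id_comp, Category.comp_id, sub_self])
  refine ⟨⟨f, r, ?_⟩⟩
  rw [← cancel_mono f, Category.assoc, hr, Preadditive.comp_sub, Category.comp_id, Category.id_comp,
    ← Category.assoc, h.w, zero_comp, sub_zero]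

/-- A splitting. -/
lemma Ex.iso_biprod {M N P : 𝒜} {f : M ⟶ N} {g : N ⟶ P} (h : Ex f g) [Epi g] (r : N ⟶ M) (hr : f ≫ r = 𝟙 M) :
    Nonempty (N ≅ M ⊞ P) := by
  obtain ⟨w, hw⟩ := h
  have : Epi (ShortComplex.mk f g w).g := ‹Epi g›
  exact ⟨(ShortComplex.Splitting.ofExactOfRetraction (ShortComplex.mk f g w) hw r hr this).isoBinaryBiproduct⟩

/-- Retracts and isomorphisms. -/
def retractOfIso {M N : 𝒜} (e : M ≅ N) : Retract M N := ⟨e.hom, e.inv, e.hom_inv_id⟩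

/-- The functor preserves retracts. -/
lemma retract_iterate {M N : 𝒜} (T : 𝒜 ⥤ 𝒜) (n : ℕ) (h : Nonempty (Retract M N)) :
    Nonempty (Retract (T.obj^[n] M) (T.obj^[n] N)) := by
  induction n with
  | zero => exact h
  | succ n ih =>
    obtain ⟨r⟩ := ih
    rw [Function.iterate_succ_apply', Function.iterate_succ_apply']
    exact ⟨r.map T⟩

end Q54.PX
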