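import Mathlib

/-!
# Cohomology theories of affine pairs
-/

set_option autoImplicit false

universe v u

namespace Q54.PX

open CategoryTheory Limits Polynomial

/-- Simple normal crossings: the divisors `w i = 0` on `Spec A` are smooth and cross transversally. For each finite set
`s` of indices the intersection of the `w i = 0` with `i` in `s` is smooth over `k`, and `w i` is not a zero divisor on
it if `i` is not in `s`. -/
def Snc (k : Type) {A : Type} [CommRing k] [CommRing A] [Algebra k A] {ι : Type} (w : ι → A) : Prop :=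
  ∀ s : Finset ι, Algebra.FormallySmooth k (A ⧸ Ideal.span (w '' s)) ∧
    ∀ i ∉ s, ∀ a, w i * a ∈ Ideal.span (w '' s) → a ∈ Ideal.span (w '' s)

/-- The equation `∑ y_i f_i(x) - 1` in the variables `x_1, …, x_N` (the left summand) and `y_1, …, y_m` (the right
summand). -/
noncomputable def cayley {k : Type} [CommRing k] {N m : ℕ} (f : Fin m → MvPolynomial (Fin N) k) :
    MvPolynomial (Fin N ⊕ Fin m) k :=
  ∑ i, MvPolynomial.X (Sum.inr i) * MvPolynomial.rename Sum.inl (f i) - 1

/-- The coordinate ring of the hypersurface `∑ y_i f_i(x) = 1`. -/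
abbrev Hyp {k : Type} [CommRing k] {N m : ℕ} (f : Fin m → MvPolynomial (Fin N) k) : Type :=
  MvPolynomial (Fin N ⊕ Fin m) k ⧸ Ideal.span {cayley f}

section pairs

variable (k : Type) [Field k]

/-- An affine pair `(X, Y)` over the field `k`: the affine variety `X = Spec A` and its closed subset `Y = V(I)`. -/
structure AffPair where
  /-- The coordinate ring of `X`. -/
  A : Type
  [ring : CommRing A]
  [alg : Algebra k A]
  [ft : Algebra.FiniteType k A]
  /-- The ideal of `Y`. -/
  I : Ideal A

attribute [instance] AffPair.ring AffPair.alg AffPair.ft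

variable {k}

/-- A morphism of pairs `(Spec B, V(J)) → (Spec A, V(I))` is given by a homomorphism `A → B` which maps `I` to the radical
of `J`. -/
@[ext]
structure AffPair.Hom (P Q : AffPair k) where
  /-- The homomorphism. -/
  f : P.A →ₐ[k] Q.A
  h : P.I.map f ≤ Q.I.radical

/-- The opposite category of the category of affine pairs. -/
instance : Category (AffPair k) where
  Hom := AffPair.Hom
  id P := ⟨AlgHom.id k P.A, (Ideal.map_id P.I).le.trans Ideal.le_radical⟩
  comp {P Q R} F G := ⟨G.f.comp F.f, by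
    have h1 : P.I.map (G.f.comp F.f) = (P.I.map F.f).map G.f := (Ideal.map_map _ _).symm
    rw [h1]
    refine (Ideal.map_mono F.h).trans ((Ideal.map_radical_le _).trans ?_)
    rw [← Ideal.radical_idem R.I]
    exact Ideal.radical_mono G.h⟩

end pairs

section morphisms

variable (k : Type) [Field k] {A : Type} [CommRing A] [Algebra k A] [Algebra.FiniteType k A]

instance finiteType_poly : Algebra.FiniteType k A[X] :=
  Algebra.FiniteType.trans (S := A) inferInstance inferInstance

instance finiteType_away (f : A) : Algebra.FiniteType k (Localization.Away f) :=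
  Algebra.FiniteType.trans (S := A) inferInstance (IsLocalization.finiteType_of_monoid_fg (Submonoid.powers f) _)

/-- The pair `(Spec A, V(I))`. -/
abbrev pr (I : Ideal A) : AffPair k := ⟨A, I⟩

variable {k}

/-- The morphism of pairs given by a homomorphism. -/
def mor {B : Type} [CommRing B] [Algebra k B] [Algebra.FiniteType k B] (f : A →ₐ[k] B) (I : Ideal A) (J : Ideal B) (h : I.map f ≤ J.radical) : pr k I ⟶ pr k J := ⟨f, h⟩

variable (k)

/-- The pair `(X, V(I) ∪ V(J))`. -/
abbrev uni (I J : Ideal A) : AffPair k := pr k (I * J)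

/-- The pair `(V(J), V(J) ∩ V(I))`. -/
abbrev sub (I J : Ideal A) : AffPair k := pr k (I.map (Ideal.Quotient.mkₐ k J))

/-- The morphism `(X, V(I)) → (X, V(I) ∪ V(J))`. -/
def wk (I J : Ideal A) : uni k I J ⟶ pr k I :=
  mor (AlgHom.id k A) _ _ ((Ideal.map_id _).le.trans (Ideal.mul_le_left.trans Ideal.le_radical))

/-- The inclusion `(V(J), V(J) ∩ V(I)) → (X, V(I))`. -/
def res (I J : Ideal A) : pr k I ⟶ sub k I J :=
  mor (Ideal.Quotient.mkₐ k J) _ _ Ideal.le_radical

/-- The pair `(X, V(I)) × 𝔸¹`. -/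
noncomputable abbrev lin (I : Ideal A) : AffPair k := pr k (I.map (CAlgHom (R := k) (A := A)))

/-- The projection `(X, Y) × 𝔸¹ → (X, Y)`. -/
noncomputable def line (I : Ideal A) : pr k I ⟶ lin k I :=
  mor CAlgHom _ _ Ideal.le_radical

/-- The part of `(X, V(I))` where `f ≠ 0`. -/
noncomputable abbrev away (f : A) (I : Ideal A) : AffPair k :=
  pr k (I.map (IsScalarTower.toAlgHom k A (Localization.Away f)))

/-- The inclusion of the part of `(X, Y)` where `f ≠ 0`. -/
noncomputable def loc (f : A) (I : Ideal A) : pr k I ⟶ away k f I :=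
  mor _ _ _ Ideal.le_radical

/-- The constants in `A[t, 1/t]`. -/
noncomputable def cT : A →ₐ[k] Localization.Away (X : A[X]) :=
  (IsScalarTower.toAlgHom k A[X] (Localization.Away (X : A[X]))).comp CAlgHom

/-- The ideal `(t - 1)` of `A[t, 1/t]`. -/
noncomputable abbrev one (A : Type) [CommRing A] : Ideal (Localization.Away (X : A[X])) :=
  Ideal.span {algebraMap A[X] (Localization.Away (X : A[X])) X - 1}

/-- The pair `(X, Y) × (𝔾ₘ, {1}) = (X × 𝔾ₘ, Y × 𝔾ₘ ∪ X × {1})`. -/
noncomputable def torus (I : Ideal A) : AffPair k := uni k (I.map (cT k (A := A))) (one A)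

/-- The ideal of the union of the divisors `w i = 0`. -/
abbrev divs {A ι : Type} [CommRing A] (w : ι → A) (s : Finset ι) : Ideal A := ∏ i ∈ s, Ideal.span {w i}

end morphisms

section affine

variable (k : Type) [Field k]

/-- The variety `Spec A`, as the pair `(Spec A, ∅)`. -/
noncomputable abbrev spec (A : Type) [CommRing A] [Algebra k A] [Algebra.FiniteType k A] : AffPair k := pr k (⊤ : Ideal A)

variable {k} {N m : ℕ}

/-- The ideal of the variety given by the equations `f_i = 0`. -/
noncomputable abbrev idl (f : Fin m → MvPolynomial (Fin N) k) : Ideal (MvPolynomial (Fin N) k) := Ideal.span (Set.range f)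

/-- The closed subvariety of the affine space given by the equations `f_i = 0`. -/
noncomputable abbrev clo (f : Fin m → MvPolynomial (Fin N) k) : AffPair k := spec k (MvPolynomial (Fin N) k ⧸ idl f)

/-- The variety given by the equations `f_i = 0` in the affine space is integral, smooth, of codimension `c`. -/
def IsSmooth (f : Fin m → MvPolynomial (Fin N) k) (c : ℕ) : Prop :=
  (idl f).IsPrime ∧ Algebra.FormallySmooth k (MvPolynomial (Fin N) k ⧸ idl f) ∧ (idl f).height = c

/-- The hypersurface `∑ y_i f_i(x) = 1`. -/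
noncomputable abbrev hyp (f : Fin m → MvPolynomial (Fin N) k) : AffPair k := spec k (Hyp f)

/-- The projection of the coordinate rings. -/
noncomputable def toHypHom (f : Fin m → MvPolynomial (Fin N) k) : MvPolynomial (Fin N) k →ₐ[k] Hyp f :=
  (Ideal.Quotient.mkₐ k _).comp (MvPolynomial.rename Sum.inl)

/-- The morphism from the hypersurface `∑ y_i f_i(x) = 1` to the affine space. -/
noncomputable def toHyp (f : Fin m → MvPolynomial (Fin N) k) : spec k (MvPolynomial (Fin N) k) ⟶ hyp f :=
  mor (toHypHom f) _ _ (le_top.trans Ideal.le_radical)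

/-- The hypersurface `∑ y_i q_i(x) = 1` is smooth, of degree at most three, with `q_i` of degree at most two. -/
def IsCubic (q : Fin m → MvPolynomial (Fin N) k) : Prop :=
  (∀ i, (q i).totalDegree ≤ 2) ∧ (cayley q).totalDegree ≤ 3 ∧ Algebra.FormallySmooth k (Hyp q)

end affine

/-- The composite of `f` and `g` is zero, and the sequence is exact in the middle. -/
def Ex {𝒜 : Type u} [Category.{v} 𝒜] [Abelian 𝒜] {M N P : 𝒜} (f : M ⟶ N) (g : N ⟶ P) : Prop :=
  ∃ w : f ≫ g = 0, (ShortComplex.mk f g w).Exact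

section axioms

variable {k : Type} [Field k] {𝒜 : Type u} [Category.{v} 𝒜] [Abelian 𝒜]

/-- The type of the boundary map `H^j(Z, Z ∩ Y) → H^(j+1)(X, Y ∪ Z)`. -/
def Bd (H : ℤ → AffPair k ⥤ 𝒜) : Type (max v 1) :=
  ∀ (j : ℤ) {A : Type} [CommRing A] [Algebra k A] [Algebra.FiniteType k A] (I J : Ideal A),
    (H j).obj (sub k I J) ⟶ (H (j + 1)).obj (uni k I J)

/-- Exact sequence of the triple `Y ⊆ Y ∪ Z ⊆ X`, with excision. -/
def Triple (H : ℤ → AffPair k ⥤ 𝒜) (δ : Bd H) : Prop :=
  ∀ (j : ℤ) {A : Type} [CommRing A] [Algebra k A] [Algebra.FiniteType k A] (I J : Ideal A),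
    Ex ((H j).map (wk k I J)) ((H j).map (res k I J)) ∧ Ex ((H j).map (res k I J)) (δ j I J) ∧
    Ex (δ j I J) ((H (j + 1)).map (wk k I J))

/-- Homotopy invariance. -/
def Homotopy (H : ℤ → AffPair k ⥤ 𝒜) : Prop :=
  ∀ (j : ℤ) {A : Type} [CommRing A] [Algebra k A] [Algebra.FiniteType k A] (I : Ideal A),
    IsIso ((H j).map (line k I))

/-- The Tate twist is the product with `H^1(𝔾ₘ, {1})`. -/
def Twist (H : ℤ → AffPair k ⥤ 𝒜) (T : 𝒜 ⥤ 𝒜) : Prop :=
  ∀ (j : ℤ) {A : Type} [CommRing A] [Algebra k A] [Algebra.FiniteType k A] (I : Ideal A),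
    Nonempty ((H (j + 1)).obj (torus k I) ≅ T.obj ((H j).obj (pr k I)))

/-- Purity: let the divisors `w i = 0` and `f = 0` on `X` have simple normal crossings, and let `Y` be the union of the
`w i = 0`. If `(Z, Z ∩ Y)` has no cohomology, where `Z` is `f = 0`, then `(X, Y)` and `(X - Z, Y - Z)` have the same
cohomology. -/
def Purity (H : ℤ → AffPair k ⥤ 𝒜) : Prop :=
  ∀ {A : Type} [CommRing A] [Algebra k A] [Algebra.FiniteType k A] {ι : Type} [Fintype ι] (w : ι → A) (f : A),
    Snc k (fun o : Option ι => o.elim f w) →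
    (∀ j, IsZero ((H j).obj (sub k (divs w Finset.univ) (Ideal.span {f})))) →
    ∀ j, IsIso ((H j).map (loc k f (divs w Finset.univ)))

/-- The Gysin sequence of a smooth closed subvariety `Z` of codimension `c` of the affine space, given by the equations
`f_i = 0`. The complement of `Z` is replaced by the hypersurface `∑ y_i f_i(x) = 1`, which is a Zariski locally
trivial bundle of affine spaces over the complement. -/
def Gysin (H : ℤ → AffPair k ⥤ 𝒜) (T : 𝒜 ⥤ 𝒜) : Prop :=
  ∀ {N m : ℕ} (f : Fin m → MvPolynomial (Fin N) k) (c : ℕ), IsSmooth f c →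
    ∃ (a : ∀ j : ℤ, T.obj^[c] ((H (j - 2 * c)).obj (clo f)) ⟶ (H j).obj (spec k (MvPolynomial (Fin N) k)))
      (b : ∀ j : ℤ, (H j).obj (hyp f) ⟶ T.obj^[c] ((H (j + 1 - 2 * c)).obj (clo f))),
      ∀ j, Ex (a j) ((H j).map (toHyp f)) ∧ Ex ((H j).map (toHyp f)) (b j) ∧ Ex (b j) (a (j + 1))

end axioms

/-- A cohomology theory of affine pairs over `k` with values in an abelian category. -/
structure PairTheory (k : Type) [Field k] (𝒜 : Type u) [Category.{v} 𝒜] [Abelian 𝒜] where
  /-- The cohomology `H^j(X, Y)`. -/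
  H : ℤ → AffPair k ⥤ 𝒜
  /-- The Tate twist `M ↦ M(-1)`. -/
  T : 𝒜 ⥤ 𝒜
  /-- The boundary map `H^j(Z, Z ∩ Y) → H^(j+1)(X, Y ∪ Z)`. -/
  δ : Bd H
  triple : Triple H δ
  homotopy : Homotopy H
  twist : Twist H T
  purity : Purity H
  gysin : Gysin H T

end Q54.PX
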