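import Mathlib

/-!
# A derivation which is one at the equation of a smooth divisor
-/

set_option autoImplicit false

namespace Q54.PX

open TensorProduct

variable {k A : Type} [CommRing k] [CommRing A] [Algebra k A]

/-- The kernel of the reduction modulo `f`. -/
abbrev Kf (f : A) : Ideal A := RingHom.ker (algebraMap A (A ⧸ Ideal.span {f}))

lemma exists_cof (f : A) (x : Kf f) : ∃ c, c * f = x :=
  Ideal.mem_span_singleton'.1 (Ideal.Quotient.eq_zero_iff_mem.1 x.2)

/-- The cofactor. -/
noncomputable def cof (f : A) (x : Kf f) : A := Classical.choose (exists_cof f x)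

lemma cof_spec (f : A) (x : Kf f) : cof f x * f = x := Classical.choose_spec (exists_cof f x)

/-- The elements of the ideal generated by `f`, divided by `f` and reduced modulo `f`. -/
noncomputable def divf (f : A) (hf : ∀ a, f * a = 0 → a = 0) : Kf f →ₗ[A] (A ⧸ Ideal.span {f}) where
  toFun x := Ideal.Quotient.mk _ (cof f x)
  map_add' x y := by
    have h1 := cof_spec f x
    have h2 := cof_spec f y
    have h3 : cof f (x + y) * f = x + y := cof_spec f (x + y)
    rw [← map_add]
    congr 1
    rw [← sub_eq_zero]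
    apply hf
    linear_combination h3 - h1 - h2
  map_smul' r x := by
    have h1 := cof_spec f x
    have h3 : cof f (r • x) * f = r * x := cof_spec f (r • x)
    rw [RingHom.id_apply]
    change _ = Ideal.Quotient.mk _ (r * cof f x)
    congr 1
    rw [← sub_eq_zero]
    apply hf
    linear_combination h3 - r * h1

lemma divf_mul (f : A) (hf : ∀ a, f * a = 0 → a = 0) (x : Kf f) (c : A)
    (h : (x : A) = c * f) : divf f hf x = Ideal.Quotient.mk _ c := by
  have h1 := cof_spec f x
  change Ideal.Quotient.mk _ (cof f x) = _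
  congr 1
  rw [← sub_eq_zero]
  apply hf
  linear_combination h1 + h

/-- If `A` and `A / f` are smooth and `f` is regular, there is a derivation of `A` with value `1` modulo `f` at `f`. -/
theorem exists_der [Algebra.FormallySmooth k A] (f : A) (hf : ∀ a, f * a = 0 → a = 0)
    [Algebra.FormallySmooth k (A ⧸ Ideal.span {f})] :
    ∃ (δ : Derivation k A A) (a : A), δ f = 1 + f * a := by
  obtain ⟨l, hl⟩ := (Algebra.FormallySmooth.iff_split_injection (R := k) (P := A)
    (A := A ⧸ Ideal.span {f}) Ideal.Quotient.mk_surjective).1 inferInstance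
  let κ : (RingHom.ker (algebraMap A (A ⧸ Ideal.span {f}))).Cotangent →ₗ[A] (A ⧸ Ideal.span {f}) :=
    Ideal.Cotangent.lift (divf f hf) (by
      intro x y
      obtain ⟨c, hc⟩ := Ideal.mem_span_singleton'.1 (Ideal.Quotient.eq_zero_iff_mem.1 x.2)
      obtain ⟨d, hd⟩ := Ideal.mem_span_singleton'.1 (Ideal.Quotient.eq_zero_iff_mem.1 y.2)
      rw [divf_mul f hf (x * y) (c * d * f) (by
        change (x : A) * y = _
        rw [← hc, ← hd]; ring)]
      exact Ideal.Quotient.eq_zero_iff_mem.2 (Ideal.mul_mem_left _ _ (Ideal.mem_span_singleton_self f)))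
  have hfk : f ∈ RingHom.ker (algebraMap A (A ⧸ Ideal.span {f})) :=
    Ideal.Quotient.eq_zero_iff_mem.2 (Ideal.mem_span_singleton_self f)
  let μ : Ω[A⁄k] →ₗ[A] (A ⧸ Ideal.span {f}) :=
    { toFun := fun ω => κ (l (1 ⊗ₜ ω))
      map_add' := fun x y => by rw [TensorProduct.tmul_add, map_add, map_add]
      map_smul' := fun r x => by
        rw [TensorProduct.tmul_smul, map_smul, map_smul, RingHom.id_apply] }
  have hμ : μ (KaehlerDifferential.D k A f) = 1 := by
    change κ (l (1 ⊗ₜ KaehlerDifferential.D k A f)) = 1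
    have h1 : (1 : A ⧸ Ideal.span {f}) ⊗ₜ[A] KaehlerDifferential.D k A f =
        KaehlerDifferential.kerCotangentToTensor k A (A ⧸ Ideal.span {f})
          (Ideal.toCotangent _ ⟨f, hfk⟩) := rfl
    rw [h1]
    have h2 := LinearMap.congr_fun hl (Ideal.toCotangent _ ⟨f, hfk⟩)
    change κ ((l ∘ₗ (KaehlerDifferential.kerCotangentToTensor k A (A ⧸ Ideal.span {f})))
      (Ideal.toCotangent _ ⟨f, hfk⟩)) = 1
    rw [hl]
    change κ (Ideal.toCotangent _ ⟨f, hfk⟩) = 1
    rw [Ideal.Cotangent.lift_toCotangent]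
    rw [divf_mul f hf ⟨f, hfk⟩ 1 (one_mul f).symm, map_one]
  obtain ⟨ν, hν⟩ := Module.projective_lifting_property (Algebra.linearMap A (A ⧸ Ideal.span {f})) μ
    Ideal.Quotient.mk_surjective
  have h3 : Ideal.Quotient.mk (Ideal.span {f}) (ν (KaehlerDifferential.D k A f)) = 1 := by
    rw [← hμ, ← hν]
    rfl
  rw [← map_one (Ideal.Quotient.mk (Ideal.span {f})), Ideal.Quotient.eq] at h3
  obtain ⟨a, ha⟩ := Ideal.mem_span_singleton'.1 h3
  refine ⟨ν.compDer (KaehlerDifferential.D k A), a, ?_⟩
  change ν (KaehlerDifferential.D k A f) = _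
  linear_combination -ha

end Q54.PX
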