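import Mathlib

/-!
# The affine deformation `f(x) = t y`
-/

set_option autoImplicit false

namespace Q54.PX

open Polynomial

section gen

variable {k R S : Type} [CommRing k] [CommRing R] [CommRing S] [Algebra k R] [Algebra k S]

/-- The kernel of a homomorphism with an inverse modulo `I`. -/
lemma ker_of_inv (Φ : R →ₐ[k] S) (I : Ideal R) (Ψ : S →ₐ[k] R ⧸ I)
    (h : Ψ.comp Φ = Ideal.Quotient.mkₐ k I) (hI : I ≤ RingHom.ker Φ) : RingHom.ker Φ = I := by
  refine le_antisymm (fun x hx => ?_) hI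
  have h1 : Ψ (Φ x) = Ideal.Quotient.mk I x := DFunLike.congr_fun h x
  rw [RingHom.mem_ker.1 hx, map_zero] at h1
  exact Ideal.Quotient.eq_zero_iff_mem.1 h1.symm

/-- The quotient by the kernel. -/
noncomputable def quotEquiv (Φ : R →ₐ[k] S) (hs : Function.Surjective Φ) (I : Ideal R)
    (hk : RingHom.ker Φ = I) : (R ⧸ I) ≃ₐ[k] S :=
  (Ideal.quotientEquivAlgOfEq k hk.symm).trans (Ideal.quotientKerAlgEquivOfSurjective hs)

lemma quotEquiv_mk (Φ : R →ₐ[k] S) (hs : Function.Surjective Φ) (I : Ideal R)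
    (hk : RingHom.ker Φ = I) (x : R) : quotEquiv Φ hs I hk (Ideal.Quotient.mk I x) = Φ x := rfl

end gen

variable {k A : Type} [CommRing k] [CommRing A] [Algebra k A]

/-- The equation `f - t y`, where `t = C X` and `y = X`. -/
noncomputable def gD (f : A) : A[X][X] := C (C f) - C X * X

/-- The coordinate ring of `f(x) = t y`. -/
def Dfm (f : A) : Type := A[X][X] ⧸ Ideal.span {gD f}

noncomputable instance (f : A) : CommRing (Dfm f) := inferInstanceAs (CommRing (A[X][X] ⧸ Ideal.span {gD f}))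

noncomputable instance instAlgebraDfm (f : A) : Algebra k (Dfm f) :=
  inferInstanceAs (Algebra k (A[X][X] ⧸ Ideal.span {gD f}))

/-- The coordinate `t`. -/
noncomputable def tD (f : A) : Dfm f := Ideal.Quotient.mk (Ideal.span {gD f}) (C X)

/-- The coordinate `y`. -/
noncomputable def yD (f : A) : Dfm f := Ideal.Quotient.mk (Ideal.span {gD f}) X

variable (k) in
/-- The functions which do not depend on `t` and `y`. -/
noncomputable def iD (f : A) : A →ₐ[k] Dfm f :=
  show A →ₐ[k] A[X][X] ⧸ Ideal.span {gD f} from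
    (Ideal.Quotient.mkₐ k (Ideal.span {gD f})).comp ((CAlgHom (R := k) (A := A[X])).comp CAlgHom)

lemma iD_apply (f a : A) : iD k f a = Ideal.Quotient.mk (Ideal.span {gD f}) (C (C a)) := rfl

lemma iD_self (f : A) : iD k f f = tD f * yD f := by
  have h : Ideal.Quotient.mk (Ideal.span {gD f}) (gD f) = 0 :=
    Ideal.Quotient.eq_zero_iff_mem.2 (Ideal.mem_span_singleton_self _)
  rw [gD, map_sub, map_mul, sub_eq_zero] at h
  exact h

section lift

variable {S : Type} [CommRing S] [Algebra k S] (f : A) (φ : A →ₐ[k] S) (τ υ : S)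

/-- Evaluation. -/
noncomputable def evD : A[X][X] →ₐ[k] S :=
  eval₂AlgHom (eval₂AlgHom φ τ fun _ => Commute.all _ _) υ fun _ => Commute.all _ _

lemma evD_CC (a : A) : evD φ τ υ (C (C a)) = φ a := by
  simp [evD]

lemma evD_CX : evD φ τ υ (C X) = τ := by
  simp [evD]

lemma evD_X : evD φ τ υ X = υ := by
  simp [evD]

/-- The universal property of the coordinate ring of `f = t y`. -/
noncomputable def liftD (h : φ f = τ * υ) : Dfm f →ₐ[k] S :=
  Ideal.Quotient.liftₐ (Ideal.span {gD f}) (evD φ τ υ) (by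
    intro a ha
    obtain ⟨c, rfl⟩ := Ideal.mem_span_singleton'.1 ha
    rw [map_mul]
    have : evD φ τ υ (gD f) = 0 := by
      rw [gD, map_sub, map_mul, evD_CC, evD_CX, evD_X, h, sub_self]
    rw [this, mul_zero])

variable (h : φ f = τ * υ)

lemma liftD_i (a : A) : liftD f φ τ υ h (iD k f a) = φ a := evD_CC φ τ υ a

lemma liftD_t : liftD f φ τ υ h (tD f) = τ := evD_CX φ τ υ

lemma liftD_y : liftD f φ τ υ h (yD f) = υ := evD_X φ τ υ

/-- Homomorphisms from the coordinate ring are determined by three restrictions. -/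
lemma hom_extD {ψ ψ' : Dfm f →ₐ[k] S} (h1 : ∀ a, ψ (iD k f a) = ψ' (iD k f a))
    (h2 : ψ (tD f) = ψ' (tD f)) (h3 : ψ (yD f) = ψ' (yD f)) : ψ = ψ' := by
  apply Ideal.Quotient.algHom_ext
  apply Polynomial.algHom_ext'
  · apply Polynomial.algHom_ext'
    · apply AlgHom.ext
      intro a
      exact h1 a
    · exact h2
  · exact h3

end lift

variable (f : A)

/-- The fibre `t = 1`. -/
noncomputable def evOne : Dfm f →ₐ[k] A := liftD f (AlgHom.id k A) 1 f (one_mul f).symm

lemma evOne_i (a : A) : evOne (k := k) f (iD k f a) = a := liftD_i _ _ _ _ _ _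
lemma evOne_t : evOne (k := k) f (tD f) = 1 := liftD_t _ _ _ _ _
lemma evOne_y : evOne (k := k) f (yD f) = f := liftD_y _ _ _ _ _

lemma evOne_surj : Function.Surjective (evOne (k := k) f) := fun a => ⟨iD k f a, evOne_i f a⟩

lemma ker_evOne : RingHom.ker (evOne (k := k) f) = Ideal.span {tD f - 1} := by
  have ht : Ideal.Quotient.mk (Ideal.span {tD f - 1}) (tD f) = 1 := by
    rw [← map_one (Ideal.Quotient.mk (Ideal.span {tD f - 1})), Ideal.Quotient.eq]
    exact Ideal.mem_span_singleton_self _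
  refine ker_of_inv _ _ ((Ideal.Quotient.mkₐ k _).comp (iD k f)) ?_ ?_
  · apply hom_extD
    · intro a
      simp only [AlgHom.comp_apply, evOne_i]
    · simp only [AlgHom.comp_apply, evOne_t, map_one]
      exact ht.symm
    · simp only [AlgHom.comp_apply, evOne_y, iD_self, map_mul]
      change Ideal.Quotient.mk (Ideal.span {tD f - 1}) (tD f) * Ideal.Quotient.mk (Ideal.span {tD f - 1}) (yD f) =
        Ideal.Quotient.mk (Ideal.span {tD f - 1}) (yD f)
      rw [ht, one_mul]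
  · rw [Ideal.span_singleton_le_iff_mem, RingHom.mem_ker, map_sub, evOne_t, map_one, sub_self]

section quot

variable (J : Ideal A) (hJ : f ∈ J)

include hJ in
lemma mk_f : Ideal.Quotient.mk J f = 0 := Ideal.Quotient.eq_zero_iff_mem.2 hJ

/-- The divisor `y = 0`, with `x` in `V(J)`. -/
noncomputable def evY : Dfm f →ₐ[k] (A ⧸ J)[X] :=
  liftD f (CAlgHom.comp (Ideal.Quotient.mkₐ k J)) X 0 (by
    rw [mul_zero]
    change C (Ideal.Quotient.mk J f) = 0
    rw [mk_f f J hJ, C_0])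

/-- The divisor `t = 0`, with `x` in `V(J)`. -/
noncomputable def evT : Dfm f →ₐ[k] (A ⧸ J)[X] :=
  liftD f (CAlgHom.comp (Ideal.Quotient.mkₐ k J)) 0 X (by
    rw [zero_mul]
    change C (Ideal.Quotient.mk J f) = 0
    rw [mk_f f J hJ, C_0])

/-- The subset `t = y = 0`, with `x` in `V(J)`. -/
noncomputable def evZ : Dfm f →ₐ[k] (A ⧸ J) :=
  liftD f (Ideal.Quotient.mkₐ k J) 0 0 (by
    rw [zero_mul]
    exact mk_f f J hJ)

lemma evY_i (a : A) : evY (k := k) f J hJ (iD k f a) = C (Ideal.Quotient.mk J a) := liftD_i _ _ _ _ _ _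
lemma evY_t : evY (k := k) f J hJ (tD f) = X := liftD_t _ _ _ _ _
lemma evY_y : evY (k := k) f J hJ (yD f) = 0 := liftD_y _ _ _ _ _
lemma evT_i (a : A) : evT (k := k) f J hJ (iD k f a) = C (Ideal.Quotient.mk J a) := liftD_i _ _ _ _ _ _
lemma evT_t : evT (k := k) f J hJ (tD f) = 0 := liftD_t _ _ _ _ _
lemma evT_y : evT (k := k) f J hJ (yD f) = X := liftD_y _ _ _ _ _
lemma evZ_i (a : A) : evZ (k := k) f J hJ (iD k f a) = Ideal.Quotient.mk J a := liftD_i _ _ _ _ _ _
lemma evZ_t : evZ (k := k) f J hJ (tD f) = 0 := liftD_t _ _ _ _ _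
lemma evZ_y : evZ (k := k) f J hJ (yD f) = 0 := liftD_y _ _ _ _ _

/-- Sections of polynomials. -/
noncomputable def backP (I : Ideal (Dfm f)) (hI : J.map (iD k f) ≤ I) (z : Dfm f) : (A ⧸ J)[X] →ₐ[k] Dfm f ⧸ I :=
  eval₂AlgHom (Ideal.Quotient.liftₐ J ((Ideal.Quotient.mkₐ k I).comp (iD k f)) (fun a ha =>
    Ideal.Quotient.eq_zero_iff_mem.2 (hI (Ideal.mem_map_of_mem _ ha)))) (Ideal.Quotient.mk I z)
    fun _ => Commute.all _ _

lemma backP_C (I : Ideal (Dfm f)) (hI : J.map (iD k f) ≤ I) (z : Dfm f) (a : A) :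
    backP f J I hI z (C (Ideal.Quotient.mk J a)) = Ideal.Quotient.mk I (iD k f a) := by
  rw [backP]
  simp only [eval₂AlgHom_apply, eval₂_C]
  rfl

lemma backP_X (I : Ideal (Dfm f)) (hI : J.map (iD k f) ≤ I) (z : Dfm f) :
    backP f J I hI z X = Ideal.Quotient.mk I z := by
  rw [backP]
  simp only [eval₂AlgHom_apply, eval₂_X]

lemma ker_evY : RingHom.ker (evY (k := k) f J hJ) = J.map (iD k f) ⊔ Ideal.span {yD f} := by
  have hy : Ideal.Quotient.mk (J.map (iD k f) ⊔ Ideal.span {yD f}) (yD f) = 0 :=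
    Ideal.Quotient.eq_zero_iff_mem.2 (Ideal.mem_sup_right (Ideal.mem_span_singleton_self _))
  refine ker_of_inv _ _ (backP f J _ le_sup_left (tD f)) ?_ (sup_le ?_ ?_)
  · apply hom_extD
    · intro a
      rw [AlgHom.comp_apply, evY_i, backP_C]; rfl
    · rw [AlgHom.comp_apply, evY_t, backP_X]; rfl
    · rw [AlgHom.comp_apply, evY_y, map_zero]; exact hy.symm
  · rw [Ideal.map_le_iff_le_comap]
    intro a ha
    change evY (k := k) f J hJ (iD k f a) = 0
    rw [evY_i, Ideal.Quotient.eq_zero_iff_mem.2 ha, C_0]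
  · rw [Ideal.span_singleton_le_iff_mem, RingHom.mem_ker, evY_y]

lemma ker_evT : RingHom.ker (evT (k := k) f J hJ) = J.map (iD k f) ⊔ Ideal.span {tD f} := by
  have hy : Ideal.Quotient.mk (J.map (iD k f) ⊔ Ideal.span {tD f}) (tD f) = 0 :=
    Ideal.Quotient.eq_zero_iff_mem.2 (Ideal.mem_sup_right (Ideal.mem_span_singleton_self _))
  refine ker_of_inv _ _ (backP f J _ le_sup_left (yD f)) ?_ (sup_le ?_ ?_)
  · apply hom_extD
    · intro a
      rw [AlgHom.comp_apply, evT_i, backP_C]; rfl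
    · rw [AlgHom.comp_apply, evT_t, map_zero]; exact hy.symm
    · rw [AlgHom.comp_apply, evT_y, backP_X]; rfl
  · rw [Ideal.map_le_iff_le_comap]
    intro a ha
    change evT (k := k) f J hJ (iD k f a) = 0
    rw [evT_i, Ideal.Quotient.eq_zero_iff_mem.2 ha, C_0]
  · rw [Ideal.span_singleton_le_iff_mem, RingHom.mem_ker, evT_t]

lemma ker_evZ : RingHom.ker (evZ (k := k) f J hJ) =
    J.map (iD k f) ⊔ Ideal.span {tD f} ⊔ Ideal.span {yD f} := by
  set I := J.map (iD k f) ⊔ Ideal.span {tD f} ⊔ Ideal.span {yD f} with hI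
  have ht : Ideal.Quotient.mk I (tD f) = 0 := Ideal.Quotient.eq_zero_iff_mem.2
    (Ideal.mem_sup_left (Ideal.mem_sup_right (Ideal.mem_span_singleton_self _)))
  have hy : Ideal.Quotient.mk I (yD f) = 0 := Ideal.Quotient.eq_zero_iff_mem.2
    (Ideal.mem_sup_right (Ideal.mem_span_singleton_self _))
  refine ker_of_inv _ _ (Ideal.Quotient.liftₐ J ((Ideal.Quotient.mkₐ k I).comp (iD k f)) (fun a ha =>
    Ideal.Quotient.eq_zero_iff_mem.2 (Ideal.mem_sup_left (Ideal.mem_sup_left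
      (Ideal.mem_map_of_mem _ ha))))) ?_ (sup_le (sup_le ?_ ?_) ?_)
  · apply hom_extD
    · intro a
      rw [AlgHom.comp_apply, evZ_i]; rfl
    · rw [AlgHom.comp_apply, evZ_t, map_zero]; exact ht.symm
    · rw [AlgHom.comp_apply, evZ_y, map_zero]; exact hy.symm
  · rw [Ideal.map_le_iff_le_comap]
    intro a ha
    change evZ (k := k) f J hJ (iD k f a) = 0
    rw [evZ_i, Ideal.Quotient.eq_zero_iff_mem.2 ha]
  · rw [Ideal.span_singleton_le_iff_mem, RingHom.mem_ker, evZ_t]
  · rw [Ideal.span_singleton_le_iff_mem, RingHom.mem_ker, evZ_y]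

omit hJ in
/-- Reduction modulo `J`. -/
noncomputable def evJ : Dfm f →ₐ[k] Dfm (Ideal.Quotient.mk J f) :=
  liftD f ((iD k (Ideal.Quotient.mk J f)).comp (Ideal.Quotient.mkₐ k J)) (tD _) (yD _)
    (iD_self (k := k) (Ideal.Quotient.mk J f))

lemma evJ_i (a : A) : evJ (k := k) f J (iD k f a) = iD k _ (Ideal.Quotient.mk J a) := liftD_i _ _ _ _ _ _
lemma evJ_t : evJ (k := k) f J (tD f) = tD _ := liftD_t _ _ _ _ _
lemma evJ_y : evJ (k := k) f J (yD f) = yD _ := liftD_y _ _ _ _ _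

lemma ker_evJ : RingHom.ker (evJ (k := k) f J) = J.map (iD k f) := by
  have hd : ∀ a ∈ J, ((Ideal.Quotient.mkₐ k (J.map (iD k f))).comp (iD k f)) a = 0 := fun a ha =>
    Ideal.Quotient.eq_zero_iff_mem.2 (Ideal.mem_map_of_mem _ ha)
  refine ker_of_inv _ _ (liftD (Ideal.Quotient.mk J f)
    (Ideal.Quotient.liftₐ J ((Ideal.Quotient.mkₐ k (J.map (iD k f))).comp (iD k f)) hd)
    (Ideal.Quotient.mk _ (tD f)) (Ideal.Quotient.mk _ (yD f)) ?_) ?_ ?_
  · change Ideal.Quotient.mk (J.map (iD k f)) (iD k f f) = _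
    rw [iD_self, map_mul]
  · apply hom_extD
    · intro a
      rw [AlgHom.comp_apply, evJ_i, liftD_i]; rfl
    · rw [AlgHom.comp_apply, evJ_t, liftD_t]; rfl
    · rw [AlgHom.comp_apply, evJ_y, liftD_y]; rfl
  · rw [Ideal.map_le_iff_le_comap]
    intro a ha
    change evJ (k := k) f J (iD k f a) = 0
    rw [evJ_i, Ideal.Quotient.eq_zero_iff_mem.2 ha, map_zero]

end quot

end Q54.PX
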