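import Pool.Agent.Q54.PX.Step
import Pool.Agent.Q54.CU.Emb

/-!
# The hypersurface of a smooth affine variety
-/

set_option autoImplicit false
set_option linter.unusedSectionVars false

universe v u

namespace Q54.PX

open CategoryTheory Limits

section pres

variable {k : Type} [Field k]

open MvPolynomial

/-- Presentations by quadratic equations, one of which does not vanish at some rational point. -/
theorem exists_pres (B : Type) [CommRing B] [Algebra k B] [Algebra.FinitePresentation k B] :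
    ∃ (N m : ℕ) (q : Fin m → MvPolynomial (Fin N) k), (∀ i, (q i).totalDegree ≤ 2) ∧
      Nonempty (B ≃ₐ[k] (MvPolynomial (Fin N) k ⧸ Ideal.span (Set.range q))) ∧
      ∃ (p : Fin N → k) (i : Fin m), aeval p (q i) ≠ 0 := by
  classical
  obtain ⟨M, m, q, hq, ⟨e⟩⟩ := Q54.CU.exists_quadPres (R := k) B
  let r := Q54.CU.extraRels q 1
  have hr : ∀ j, (r j).totalDegree ≤ 2 := Q54.CU.totalDegree_extraRels q 1 hq
  let e' : B ≃ₐ[k] (MvPolynomial (Fin M ⊕ Fin 1) k ⧸ Ideal.span (Set.range r)) := e.trans (Q54.CU.extraEquiv q 1)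
  let a : (Fin M ⊕ Fin 1) ≃ Fin (Fintype.card (Fin M ⊕ Fin 1)) := Fintype.equivFin _
  let b : Option (Fin m ⊕ Fin 1) ≃ Fin (Fintype.card (Option (Fin m ⊕ Fin 1))) := Fintype.equivFin _
  refine ⟨_, _, fun j => rename a (r (b.symm j)), fun j => (totalDegree_rename_le _ _).trans (hr _),
    ⟨e'.trans ?_⟩, Pi.single (a (Sum.inr 0)) 1, b (some (Sum.inr 0)), ?_⟩
  · refine Ideal.quotientEquivAlg _ _ (renameEquiv k a) ?_
    rw [Ideal.map_span, ← Set.range_comp]
    congr 1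
    ext x
    constructor
    · rintro ⟨j, rfl⟩
      exact ⟨b.symm j, rfl⟩
    · rintro ⟨k, rfl⟩
      exact ⟨b k, by simp⟩
  · change aeval _ (rename a (r (b.symm (b _)))) ≠ 0
    rw [Equiv.symm_apply_apply]
    change aeval _ (rename a (X (Sum.inr 0))) ≠ 0
    rw [rename_X, aeval_X, Pi.single_eq_same]
    exact one_ne_zero

/-- The hypersurface is smooth. -/
theorem smooth_Hyp {N m : ℕ} (f : Fin m → MvPolynomial (Fin N) k) : Algebra.FormallySmooth k (Hyp f) := by
  classical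
  let δ : Derivation k (MvPolynomial (Fin N ⊕ Fin m) k) (MvPolynomial (Fin N ⊕ Fin m) k) :=
    mkDerivation k (Sum.elim 0 fun j => X (Sum.inr j))
  have h1 : ∀ i, δ (X (Sum.inr i)) = X (Sum.inr i) := fun i => by simp [δ, mkDerivation_X]
  have h2 : ∀ g : MvPolynomial (Fin N) k, δ (rename Sum.inl g) = 0 := by
    intro g
    apply derivation_eq_zero_of_forall_mem_vars
    intro i hi
    obtain ⟨j, -, rfl⟩ := mem_vars_rename _ _ hi
    simp [δ, mkDerivation_X]
  refine smooth_of_der (cayley f) δ 1 ?_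
  have h3 : δ (cayley f) = ∑ i, X (Sum.inr i) * rename Sum.inl (f i) := by
    rw [cayley, map_sub, map_sum, Derivation.map_one_eq_zero, sub_zero]
    refine Finset.sum_congr rfl fun i _ => ?_
    rw [Derivation.leibniz, h1, h2, smul_zero, zero_add, smul_eq_mul, mul_comm]
  rw [h3, cayley]
  ring

end pres

section theory

variable {k : Type} [Field k] {𝒜 : Type u} [Category.{v} 𝒜] [Abelian 𝒜] (Θ : PairTheory k 𝒜)

lemma top_le {R S : Type} [CommRing R] [CommRing S] [Algebra k R] [Algebra k S] (f : R →ₐ[k] S) (I : Ideal R) :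
    I.map f ≤ (⊤ : Ideal S).radical := le_top.trans Ideal.le_radical

/-- The morphism given by a homomorphism, for pairs with empty `Y`. -/
abbrev mt {R S : Type} [CommRing R] [Algebra k R] [Algebra.FiniteType k R] [CommRing S] [Algebra k S]
    [Algebra.FiniteType k S] (f : R →ₐ[k] S) : (pr k (⊤ : Ideal R) : AffPair k) ⟶ pr k (⊤ : Ideal S) :=
  mor f _ _ (top_le f _)

section mt

variable {R S U : Type} [CommRing R] [Algebra k R] [Algebra.FiniteType k R] [CommRing S] [Algebra k S]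
    [Algebra.FiniteType k S] [CommRing U] [Algebra k U] [Algebra.FiniteType k U]

lemma mt_comp (f : R →ₐ[k] S) (g : S →ₐ[k] U) : mt f ≫ mt g = mt (g.comp f) := rfl

lemma mt_id : mt (AlgHom.id k R) = 𝟙 (pr k (⊤ : Ideal R)) := rfl

/-- Isomorphic algebras. -/
noncomputable def isoT (e : R ≃ₐ[k] S) : (pr k (⊤ : Ideal R) : AffPair k) ≅ pr k (⊤ : Ideal S) :=
  isoPr e _ _ (top_le _ _) (top_le _ _)

lemma isoT_hom (e : R ≃ₐ[k] S) : (isoT e).hom = mt (e : R →ₐ[k] S) := rfl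

end mt

open Polynomial in
lemma line_top (A : Type) [CommRing A] [Algebra k A] [Algebra.FiniteType k A] (j : ℤ) :
    IsIso ((Θ.H j).map (mt (CAlgHom (R := k) (A := A)))) := by
  have h := Θ.homotopy j (⊤ : Ideal A)
  have h2 : (⊤ : Ideal A).map (CAlgHom (R := k) (A := A)) = ⊤ := Ideal.map_top _
  have h3 : ∀ (J : Ideal A[X]) (hJ : J = ⊤) (h : (⊤ : Ideal A).map (CAlgHom (R := k) (A := A)) ≤ J.radical),
      IsIso ((Θ.H j).map (mor CAlgHom (⊤ : Ideal A) J h)) → IsIso ((Θ.H j).map (mt (CAlgHom (R := k) (A := A)))) := by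
    rintro J rfl h h'
    exact h'
  exact h3 _ h2 _ h

/-- The affine space has the cohomology of the point. -/
theorem aff_iso (N : ℕ) (j : ℤ) :
    IsIso ((Θ.H j).map (mt (Algebra.ofId k (MvPolynomial (Fin N) k)))) := by
  induction N with
  | zero =>
    have h : (isoT (MvPolynomial.isEmptyAlgEquiv k (Fin 0)).symm).hom = mt (Algebra.ofId k (MvPolynomial (Fin 0) k)) := by
      apply AffPair.Hom.ext
      exact Subsingleton.elim (α := k →ₐ[k] MvPolynomial (Fin 0) k) _ _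
    rw [← h]
    infer_instance
  | succ N ih =>
    have h : mt (Algebra.ofId k (MvPolynomial (Fin (N + 1)) k)) = mt (Algebra.ofId k (MvPolynomial (Fin N) k)) ≫
        mt (Polynomial.CAlgHom (R := k) (A := MvPolynomial (Fin N) k)) ≫
        (isoT (MvPolynomial.finSuccEquiv k N).symm).hom := by
      apply AffPair.Hom.ext
      exact Subsingleton.elim (α := k →ₐ[k] MvPolynomial (Fin (N + 1)) k) _ _
    rw [h, Functor.map_comp, Functor.map_comp]
    have := line_top Θ (MvPolynomial (Fin N) k) j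
    infer_instance

/-- A rational point of the hypersurface. -/
theorem exists_point {N m : ℕ} (q : Fin m → MvPolynomial (Fin N) k) (p : Fin N → k) (i : Fin m)
    (h : MvPolynomial.aeval p (q i) ≠ 0) : Nonempty (Hyp q →ₐ[k] k) := by
  classical
  let ψ : MvPolynomial (Fin N ⊕ Fin m) k →ₐ[k] k :=
    MvPolynomial.aeval (Sum.elim p (Pi.single i (MvPolynomial.aeval p (q i))⁻¹))
  refine ⟨Ideal.Quotient.liftₐ _ ψ ?_⟩
  intro a ha
  obtain ⟨c, rfl⟩ := Ideal.mem_span_singleton'.1 ha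
  have h1 : ψ (cayley q) = 0 := by
    rw [cayley, map_sub, map_sum, map_one, sub_eq_zero]
    rw [Finset.sum_eq_single i]
    · rw [map_mul]
      have h2 : ψ (MvPolynomial.rename Sum.inl (q i)) = MvPolynomial.aeval p (q i) := by
        change MvPolynomial.aeval _ (MvPolynomial.rename Sum.inl (q i)) = _
        rw [MvPolynomial.aeval_rename]
        rfl
      have h3 : ψ (MvPolynomial.X (Sum.inr i)) = (MvPolynomial.aeval p (q i))⁻¹ := by
        change MvPolynomial.aeval _ (MvPolynomial.X (Sum.inr i)) = _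
        rw [MvPolynomial.aeval_X, Sum.elim_inr, Pi.single_eq_same]
      rw [h2, h3, inv_mul_cancel₀ h]
    · intro l _ hl
      have h3 : ψ (MvPolynomial.X (Sum.inr l)) = 0 := by
        change MvPolynomial.aeval _ (MvPolynomial.X (Sum.inr l)) = _
        rw [MvPolynomial.aeval_X, Sum.elim_inr, Pi.single_eq_of_ne hl]
      rw [map_mul, h3, zero_mul]
    · intro hi
      exact absurd (Finset.mem_univ i) hi
  rw [map_mul, h1, mul_zero]

/-- **The cohomology of the hypersurface** of a smooth closed subvariety of the affine space. -/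
theorem hyp_step {N m : ℕ} (q : Fin m → MvPolynomial (Fin N) k) (c : ℕ) (hP : (Ideal.span (Set.range q)).IsPrime)
    (hs : Algebra.FormallySmooth k (MvPolynomial (Fin N) k ⧸ Ideal.span (Set.range q)))
    (hc : (Ideal.span (Set.range q)).height = c) (ρ : Hyp q →ₐ[k] k) (j : ℤ) :
    Nonempty (Retract (Θ.T.obj^[c] ((Θ.H (j + 1 - 2 * c)).obj
      (pr k (⊤ : Ideal (MvPolynomial (Fin N) k ⧸ Ideal.span (Set.range q))))))
      ((Θ.H j).obj (pr k (⊤ : Ideal (Hyp q))))) ∧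
    Nonempty ((Θ.H j).obj (pr k (⊤ : Ideal (Hyp q))) ≅ (Θ.H j).obj (pr k (⊤ : Ideal k)) ⊞
      (Θ.T.obj^[c] ((Θ.H (j + 1 - 2 * c)).obj
        (pr k (⊤ : Ideal (MvPolynomial (Fin N) k ⧸ Ideal.span (Set.range q))))))) := by
  obtain ⟨a, b, hab⟩ := Θ.gysin q c ⟨hP, hs, hc⟩
  let α : (pr k (⊤ : Ideal k) : AffPair k) ⟶ pr k (⊤ : Ideal (MvPolynomial (Fin N) k)) := mt (Algebra.ofId k _)
  have hα : ∀ j, IsIso ((Θ.H j).map α) := aff_iso Θ N
  have hρ : ∀ j, (Θ.H j).map α ≫ (Θ.H j).map (toHyp q) ≫ (Θ.H j).map (mt ρ) = 𝟙 _ := by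
    intro j
    rw [← Functor.map_comp, ← Functor.map_comp, ← CategoryTheory.Functor.map_id]
    congr 1
    apply AffPair.Hom.ext
    exact Subsingleton.elim (α := k →ₐ[k] k) _ _
  have hr : ∀ j, (Θ.H j).map (toHyp q) ≫ ((Θ.H j).map (mt ρ) ≫ (Θ.H j).map α) = 𝟙 _ := by
    intro j
    have := hα j
    rw [← cancel_epi ((Θ.H j).map α)]
    rw [← Category.assoc ((Θ.H j).map (toHyp q)), ← Category.assoc, hρ, Category.id_comp, Category.comp_id]
  have hm : ∀ j, Mono ((Θ.H j).map (toHyp q)) := fun j => by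
    have : IsSplitMono ((Θ.H j).map (toHyp q)) := ⟨⟨⟨_, hr j⟩⟩⟩
    infer_instance
  have hb : Epi (b j) := by
    have := hm (j + 1)
    exact (hab j).2.2.epi (hab (j + 1)).1.eq_zero_of_mono
  obtain ⟨w, hw⟩ := (hab j).2.1
  have h5 : Epi (ShortComplex.mk ((Θ.H j).map (toHyp q)) (b j) w).g := hb
  let sp := ShortComplex.Splitting.ofExactOfRetraction (ShortComplex.mk ((Θ.H j).map (toHyp q)) (b j) w) hw _ (hr j) h5
  have := hα j
  exact ⟨⟨⟨sp.s, b j, sp.s_g⟩⟩,
    ⟨sp.isoBinaryBiproduct ≪≫ biprod.mapIso (asIso ((Θ.H j).map α)).symm (Iso.refl _)⟩⟩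

/-- **Smooth affine varieties are contained in hypersurfaces.** -/
theorem exists_hyp (B : Type) [CommRing B] [IsDomain B] [Algebra k B] [Algebra.FiniteType k B]
    [Algebra.FormallySmooth k B] :
    ∃ (N m : ℕ) (q : Fin m → MvPolynomial (Fin N) k), (∀ i, (q i).totalDegree ≤ 2) ∧ ∃ c : ℕ, 1 ≤ c ∧
      ∀ (𝒜 : Type u) [Category.{v} 𝒜] [Abelian 𝒜] (Θ : PairTheory k 𝒜) (i j : ℤ), i = j + 1 - 2 * c →
        Nonempty (Retract (Θ.T.obj^[c] ((Θ.H i).obj (pr k (⊤ : Ideal B)))) ((Θ.H j).obj (pr k (⊤ : Ideal (Hyp q))))) ∧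
        Nonempty ((Θ.H j).obj (pr k (⊤ : Ideal (Hyp q))) ≅ (Θ.H j).obj (pr k (⊤ : Ideal k)) ⊞
          (Θ.T.obj^[c] ((Θ.H i).obj (pr k (⊤ : Ideal B))))) := by
  have : Algebra.FinitePresentation k B := (Algebra.FinitePresentation.of_finiteType).1 inferInstance
  obtain ⟨N, m, q, hq, ⟨e⟩, p, i₀, hp⟩ := exists_pres (k := k) B
  obtain ⟨ρ⟩ := exists_point q p i₀ hp
  have h1 : IsDomain (MvPolynomial (Fin N) k ⧸ Ideal.span (Set.range q)) := e.symm.toMulEquiv.isDomain B
  have h2 : (Ideal.span (Set.range q)).IsPrime := (Ideal.Quotient.isDomain_iff_prime _).1 h1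
  have h3 : Algebra.FormallySmooth k (MvPolynomial (Fin N) k ⧸ Ideal.span (Set.range q)) :=
    Algebra.FormallySmooth.of_equiv e
  have h4 : (Ideal.span (Set.range q)).height ≠ ⊤ := (Ideal.height_lt_top h2.ne_top).ne
  obtain ⟨c₀, hc⟩ := ENat.ne_top_iff_exists.1 h4
  have h5 : 1 ≤ c₀ := by
    rw [Nat.one_le_iff_ne_zero]
    rintro rfl
    have h6 : (Ideal.span (Set.range q)).height = 0 := by
      rw [← hc, Nat.cast_zero]
    rw [Ideal.height_eq_zero_iff_eq_bot, Ideal.span_eq_bot] at h6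
    exact hp (by rw [h6 (q i₀) ⟨i₀, rfl⟩, map_zero])
  refine ⟨N, m, q, hq, c₀, h5, ?_⟩
  intro 𝒜 _ _ Θ i j hij
  subst hij
  obtain ⟨⟨r⟩, ⟨s⟩⟩ := hyp_step Θ q c₀ h2 h3 hc.symm ρ j
  have E : (Θ.H (j + 1 - 2 * c₀)).obj (pr k (⊤ : Ideal B)) ≅ (Θ.H (j + 1 - 2 * c₀)).obj
      (pr k (⊤ : Ideal (MvPolynomial (Fin N) k ⧸ Ideal.span (Set.range q)))) := (Θ.H _).mapIso (isoT e)
  have E' : ∀ c : ℕ, Nonempty (Θ.T.obj^[c] ((Θ.H (j + 1 - 2 * c₀)).obj (pr k (⊤ : Ideal B))) ≅ Θ.T.obj^[c]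
      ((Θ.H (j + 1 - 2 * c₀)).obj (pr k (⊤ : Ideal (MvPolynomial (Fin N) k ⧸ Ideal.span (Set.range q)))))) := by
    intro c
    induction c with
    | zero => exact ⟨E⟩
    | succ n ih =>
      obtain ⟨u⟩ := ih
      rw [Function.iterate_succ_apply', Function.iterate_succ_apply']
      exact ⟨Θ.T.mapIso u⟩
  obtain ⟨u⟩ := E' c₀
  exact ⟨⟨(retractOfIso u).trans r⟩, ⟨s ≪≫ biprod.mapIso (Iso.refl _) u.symm⟩⟩

end theory

end Q54.PX
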