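import Pool.Agent.Q54.PX.Emb

/-!
# Iterating the deformation
-/

set_option autoImplicit false
set_option linter.unusedSectionVars false

universe v u

namespace Q54.PX

open CategoryTheory Limits

variable {k : Type} [Field k]

/-- Subfamilies. -/
lemma Snc.comp {A : Type} [CommRing A] [Algebra k A] {ι ι' : Type} {w : ι → A} (h : Snc k w) (e : ι' → ι)
    (he : Function.Injective e) : Snc k fun i => w (e i) := by
  intro s
  have h1 : (fun i => w (e i)) '' s = w '' ((s.map ⟨e, he⟩ : Finset ι) : Set ι) := by
    rw [Finset.coe_map, Set.image_image]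
    rfl
  rw [h1]
  refine ⟨(h _).1, fun i hi => (h (s.map ⟨e, he⟩)).2 (e i) ?_⟩
  intro hc
  obtain ⟨j, hj, hji⟩ := Finset.mem_map.1 hc
  exact hi (he hji ▸ hj)

lemma Snc.congr {A : Type} [CommRing A] [Algebra k A] {ι : Type} {w w' : ι → A} (h : Snc k w) (hw : w = w') : Snc k w' :=
  hw ▸ h

/-- The variety is smooth. -/
lemma Snc.smooth {A : Type} [CommRing A] [Algebra k A] {ι : Type} {w : ι → A} (h : Snc k w) :
    Algebra.FormallySmooth k A := by
  have h1 := (h ∅).1
  have h2 : Ideal.span (w '' ((∅ : Finset ι) : Set ι)) = ⊥ := by simp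
  rw [h2] at h1
  exact Algebra.FormallySmooth.of_equiv (AlgEquiv.quotientBot k A)

/-- The equations are not zero divisors. -/
lemma Snc.reg {A : Type} [CommRing A] [Algebra k A] {ι : Type} {w : ι → A} (h : Snc k w) (i : ι) (a : A)
    (ha : w i * a = 0) : a = 0 := by
  have h1 := (h ∅).2 i (by simp) a
  have h2 : Ideal.span (w '' ((∅ : Finset ι) : Set ι)) = ⊥ := by simp
  rw [h2] at h1
  exact h1 ha

lemma prod_subtype {A : Type} [CommRing A] {ι : Type} (s : Finset ι) (w : ι → A) :
    ∏ i ∈ s, Ideal.span {w i} = dv fun i : {i // i ∈ s} => w i := by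
  rw [dv, ← Finset.prod_coe_sort]

/-- The boundary case of an empty set of divisors, with shifted degree. -/
lemma retract_cast {𝒜 : Type u} [Category.{v} 𝒜] [Abelian 𝒜] (Θ : PairTheory k 𝒜) (P : AffPair k) {i j : ℤ} (h : i = j) :
    Nonempty (Retract ((Θ.H i).obj P) ((Θ.H j).obj P)) := by
  subst h
  exact ⟨Retract.refl _⟩

/-- **The tower of affine deformations.** -/
theorem tower (r : ℕ) : ∀ (A : Type) [CommRing A] [IsDomain A] [Algebra k A] [Algebra.FiniteType k A]
    (w : Fin r → A), Snc k w →
    ∃ (B : Type) (_ : CommRing B) (_ : IsDomain B) (_ : Algebra k B) (_ : Algebra.FiniteType k B),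
      Algebra.FormallySmooth k B ∧
      ∀ (𝒜 : Type u) [Category.{v} 𝒜] [Abelian 𝒜] (Θ : PairTheory k 𝒜) (s : Finset (Fin r)) (i j : ℤ),
        i = j + s.card →
        Nonempty (Retract (Θ.T.obj^[s.card] ((Θ.H j).obj (pr k (∏ i ∈ s, Ideal.span {w i}))))
          ((Θ.H i).obj (pr k (⊤ : Ideal B)))) := by
  classical
  induction r with
  | zero =>
    intro A _ _ _ _ w hw
    refine ⟨A, inferInstance, inferInstance, inferInstance, inferInstance, hw.smooth, ?_⟩
    intro 𝒜 _ _ Θ s i j hij
    have hs : s = ∅ := Subsingleton.elim _ _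
    subst hs
    rw [Finset.prod_empty, Finset.card_empty, Ideal.one_eq_top]
    exact retract_cast Θ _ (by rw [hij]; simp)
  | succ r ih =>
    intro A _ _ _ _ w hw
    set f := w (Fin.last r) with hf
    have hf0 : f ≠ 0 := by
      intro h0
      have := hw.reg (Fin.last r) 1 (by rw [← hf, h0, zero_mul])
      exact one_ne_zero this
    have hdom : IsDomain (Dfm f) := isDomain_Dfm f hf0
    let e : Option (Fin r) → Fin (r + 1) := fun o => o.elim (Fin.last r) Fin.castSucc
    have he : Function.Injective e := by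
      rintro (_ | a) (_ | b) hab
      · rfl
      · exact absurd hab.symm (Fin.castSucc_ne_last b)
      · exact absurd hab (Fin.castSucc_ne_last a)
      · exact congrArg some (Fin.castSucc_injective r hab)
    let w' : Fin r → A := fun i => w (Fin.castSucc i)
    have h1 : Snc k (withf f w') := (hw.comp e he).congr (by
      funext o
      cases o <;> rfl)
    have h2 : Snc k fun i => iD k f (w' i) := (snc_Dfm f w' h1).comp (fun i => some (some i))
      (fun a b hab => Option.some_injective _ (Option.some_injective _ hab))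
    obtain ⟨B, i1, i2, i3, i4, hB, hR⟩ := ih (Dfm f) (fun i => iD k f (w' i)) h2
    refine ⟨B, i1, i2, i3, i4, hB, ?_⟩
    intro 𝒜 _ _ Θ s i j hij
    let s' : Finset (Fin r) := s.preimage Fin.castSucc (Fin.castSucc_injective r).injOn
    have hmem : ∀ a, a ∈ s' ↔ Fin.castSucc a ∈ s := fun a => Finset.mem_preimage
    have hkey : (dv fun i : {i // i ∈ s'} => w' i).map (iD k f) = ∏ i ∈ s', Ideal.span {iD k f (w' i)} := by
      rw [map_dv, prod_subtype]
    by_cases hl : Fin.last r ∈ s
    · have hs : s = insert (Fin.last r) (s'.map Fin.castSuccEmb) := by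
        ext a
        rw [Finset.mem_insert, Finset.mem_map]
        induction a using Fin.lastCases with
        | last => simp [hl]
        | cast a =>
          rw [← hmem]
          constructor
          · intro h
            exact Or.inr ⟨a, h, rfl⟩
          · rintro (h | ⟨b, hb, hba⟩)
            · exact absurd h (Fin.castSucc_ne_last a)
            · exact (Fin.castSucc_injective r hba) ▸ hb
      have hni : Fin.last r ∉ s'.map Fin.castSuccEmb := by
        rw [Finset.mem_map]
        rintro ⟨b, -, hb⟩
        exact Fin.castSucc_ne_last b hb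
      have hcard : s.card = s'.card + 1 := by
        rw [hs, Finset.card_insert_of_notMem hni, Finset.card_map]
      have hprod : ∏ i ∈ s, Ideal.span {w i} = (dv fun i : {i // i ∈ s'} => w' i) * Ideal.span {f} := by
        rw [hs, Finset.prod_insert hni, Finset.prod_map, ← prod_subtype, mul_comm]
        rfl
      have h3 : Snc k (fun o : Option {i // i ∈ s'} => o.elim f fun i => w' i) :=
        (h1.comp (fun o : Option {i // i ∈ s'} => o.map Subtype.val)
          (Option.map_injective Subtype.val_injective)).congr (by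
            funext o
            cases o <;> rfl)
      obtain ⟨R1⟩ := step (fun i : {i // i ∈ s'} => w' i) f Θ h3 j
      obtain ⟨R2⟩ := retract_iterate Θ.T s'.card ⟨R1⟩
      rw [hkey] at R2
      obtain ⟨R3⟩ := hR 𝒜 Θ s' i (j + 1) (by rw [hij, hcard]; push_cast; ring)
      rw [hcard, hprod, Function.iterate_succ_apply]
      exact ⟨R2.trans R3⟩
    · have hs : s = s'.map Fin.castSuccEmb := by
        ext a
        rw [Finset.mem_map]
        induction a using Fin.lastCases with
        | last =>
          constructor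
          · intro h
            exact absurd h hl
          · rintro ⟨b, -, hb⟩
            exact absurd hb (Fin.castSucc_ne_last b)
        | cast a =>
          rw [← hmem]
          constructor
          · intro h
            exact ⟨a, h, rfl⟩
          · rintro ⟨b, hb, hba⟩
            exact (Fin.castSucc_injective r hba) ▸ hb
      have hcard : s.card = s'.card := by
        rw [hs, Finset.card_map]
      have hprod : ∏ i ∈ s, Ideal.span {w i} = dv fun i : {i // i ∈ s'} => w' i := by
        rw [hs, Finset.prod_map, ← prod_subtype]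
        rfl
      obtain ⟨R1⟩ := step0 (f := f) Θ (dv fun i : {i // i ∈ s'} => w' i) j
      obtain ⟨R2⟩ := retract_iterate Θ.T s'.card ⟨R1⟩
      rw [hkey] at R2
      obtain ⟨R3⟩ := hR 𝒜 Θ s' i j (by rw [hij, hcard])
      rw [hcard, hprod]
      exact ⟨R2.trans R3⟩

/-- The degree of the hypersurface. -/
theorem totalDegree_cayley {N m : ℕ} (q : Fin m → MvPolynomial (Fin N) k) (hq : ∀ i, (q i).totalDegree ≤ 2) :
    (cayley q).totalDegree ≤ 3 := by
  rw [cayley]
  refine (MvPolynomial.totalDegree_sub _ _).trans (max_le ?_ ?_)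
  · refine MvPolynomial.totalDegree_finsetSum_le fun i _ => ?_
    refine (MvPolynomial.totalDegree_mul _ _).trans ?_
    have h1 : (MvPolynomial.X (Sum.inr i) : MvPolynomial (Fin N ⊕ Fin m) k).totalDegree = 1 :=
      MvPolynomial.totalDegree_X _
    have h2 := (MvPolynomial.totalDegree_rename_le (Sum.inl : Fin N → Fin N ⊕ Fin m) (q i)).trans (hq i)
    omega
  · rw [MvPolynomial.totalDegree_one]
    exact Nat.zero_le _

/-- **All relative cohomology groups are in the cohomology of one cubic hypersurface.** -/
theorem exists_cubic {A : Type} [CommRing A] [IsDomain A] [Algebra k A] [Algebra.FiniteType k A] {r : ℕ}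
    (w : Fin r → A) (hw : Snc k w) :
    ∃ (N m : ℕ) (q : Fin m → MvPolynomial (Fin N) k), (∀ i, (q i).totalDegree ≤ 2) ∧ ∃ c : ℕ, 1 ≤ c ∧
      ∀ (𝒜 : Type u) [Category.{v} 𝒜] [Abelian 𝒜] (Θ : PairTheory k 𝒜) (s : Finset (Fin r)) (j : ℤ),
        Nonempty (Retract (Θ.T.obj^[s.card + c] ((Θ.H j).obj (pr k (∏ i ∈ s, Ideal.span {w i}))))
          ((Θ.H (j + s.card + 2 * c - 1)).obj (pr k (⊤ : Ideal (Hyp q))))) := by
  obtain ⟨B, i1, i2, i3, i4, hB, hR⟩ := tower.{v, u} (k := k) r A w hw
  obtain ⟨N, m, q, hq, c, h1, hc⟩ := exists_hyp.{v, u} (k := k) B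
  refine ⟨N, m, q, hq, c, h1, fun 𝒜 _ _ Θ s j => ?_⟩
  obtain ⟨R1⟩ := retract_iterate Θ.T c (hR 𝒜 Θ s (j + s.card) j rfl)
  obtain ⟨R2⟩ := (hc 𝒜 Θ (j + s.card) (j + s.card + 2 * c - 1) (by ring)).1
  rw [add_comm s.card c, Function.iterate_add_apply]
  exact ⟨R1.trans R2⟩

end Q54.PX
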