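import Pool.Agent.Q54.PX.Der
import Pool.Agent.Q54.PX.Dfm

/-!
# Regular elements and smoothness of the affine deformation
-/

set_option autoImplicit false

namespace Q54.PX

open Polynomial

variable {k A : Type} [CommRing k] [CommRing A] [Algebra k A]

/-- The torus over `A`. -/
abbrev Tor (A : Type) [CommRing A] : Type := Localization.Away (X : A[X])

/-- The constants in the torus. -/
noncomputable def iT (k A : Type) [CommRing k] [CommRing A] [Algebra k A] : A →ₐ[k] Tor A :=
  (IsScalarTower.toAlgHom k A[X] (Tor A)).comp CAlgHom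

lemma iT_apply (a : A) : iT k A a = algebraMap A[X] (Tor A) (C a) := rfl

/-- The coordinate on the torus. -/
noncomputable def tT (A : Type) [CommRing A] : Tor A := algebraMap A[X] (Tor A) X

/-- The inverse of the coordinate. -/
noncomputable def tI (A : Type) [CommRing A] : Tor A := IsLocalization.Away.invSelf (X : A[X])

lemma tT_mul : tT A * tI A = 1 := IsLocalization.Away.mul_invSelf (S := Tor A) (X : A[X])

lemma tT_unit : IsUnit (tT A) := IsUnit.of_mul_eq_one _ tT_mul

section regular

lemma X_reg (q : A[X][X]) (h : C X * q = 0) : q = 0 := by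
  ext i j
  have h1 := congrArg (fun p => (coeff p i).coeff (j + 1)) h
  simpa [coeff_C_mul, coeff_X_mul] using h1

lemma tD_reg (f : A) (hf : ∀ a, f * a = 0 → a = 0) (d : Dfm f) (h : tD f * d = 0) : d = 0 := by
  obtain ⟨p, rfl⟩ := Ideal.Quotient.mk_surjective (I := Ideal.span {gD f}) d
  have h1 : C X * p ∈ Ideal.span {gD f} := Ideal.Quotient.eq_zero_iff_mem.1 h
  obtain ⟨q, hq⟩ := Ideal.mem_span_singleton'.1 h1
  have h2 : ∀ i, X ∣ q.coeff i := by
    intro i
    rw [X_dvd_iff]
    apply hf
    have h3 := congrArg (fun p => (coeff p i).coeff 0) hq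
    simp only [gD, mul_sub, coeff_sub, coeff_C_mul, mul_coeff_zero, coeff_X_zero, zero_mul] at h3
    have h4 : ((q * (C X * X)).coeff i).coeff 0 = 0 := by
      rw [show q * (C X * X) = C X * (q * X) by ring, coeff_C_mul, mul_coeff_zero, coeff_X_zero, zero_mul]
    rw [h4, coeff_mul_C, mul_coeff_zero, coeff_C_zero, sub_zero] at h3
    rw [mul_comm]
    exact h3
  obtain ⟨q', rfl⟩ := (C_dvd_iff_dvd_coeff _ _).2 h2
  have h5 : p - q' * gD f = 0 := by
    apply X_reg
    linear_combination -hq
  apply Ideal.Quotient.eq_zero_iff_mem.2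
  rw [sub_eq_zero] at h5
  rw [h5]
  exact Ideal.mul_mem_left _ _ (Ideal.mem_span_singleton_self _)

end regular

section torus

variable (f : A)

/-- The map to the torus. -/
noncomputable def lamD : Dfm f →ₐ[k] Tor A :=
  liftD f (iT k A) (tT A) (iT k A f * tI A) (by
    rw [mul_comm (iT k A f), ← mul_assoc, tT_mul, one_mul])

lemma lamD_i (a : A) : lamD (k := k) f (iD k f a) = iT k A a := liftD_i _ _ _ _ _ _
lemma lamD_t : lamD (k := k) f (tD f) = tT A := liftD_t _ _ _ _ _
lemma lamD_y : lamD (k := k) f (yD f) = iT k A f * tI A := liftD_y _ _ _ _ _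

/-- The localization of the deformation. -/
abbrev DT (f : A) : Type := Localization.Away (tD f)

/-- The map from the localization to the torus. -/
noncomputable def toTor : DT f →ₐ[k] Tor A :=
  IsLocalization.liftAlgHom (M := Submonoid.powers (tD f)) (f := lamD (k := k) f) (by
    rintro ⟨_, n, rfl⟩
    simp only [map_pow, lamD_t]
    exact tT_unit.pow n)

lemma toTor_algebraMap (d : Dfm f) : toTor (k := k) f (algebraMap _ _ d) = lamD (k := k) f d := by
  simp [toTor]

lemma toTor_comp : (toTor (k := k) f).comp (IsScalarTower.toAlgHom k (Dfm f) (DT f)) = lamD f := by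
  apply AlgHom.ext
  intro d
  exact toTor_algebraMap f d

/-- The map from polynomials to the localization. -/
noncomputable def polyTo : A[X] →ₐ[k] DT f :=
  eval₂AlgHom ((IsScalarTower.toAlgHom k (Dfm f) (DT f)).comp (iD k f)) (algebraMap _ _ (tD f))
    fun _ => Commute.all _ _

lemma polyTo_C (a : A) : polyTo (k := k) f (C a) = algebraMap _ _ (iD k f a) := by
  simp [polyTo]

lemma polyTo_X : polyTo (k := k) f X = algebraMap _ _ (tD f) := by
  simp [polyTo]

lemma tD_unit : IsUnit (algebraMap (Dfm f) (DT f) (tD f)) := IsLocalization.Away.algebraMap_isUnit _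

/-- The map from the torus. -/
noncomputable def fromTor : Tor A →ₐ[k] DT f :=
  IsLocalization.liftAlgHom (M := Submonoid.powers (X : A[X])) (f := polyTo (k := k) f) (by
    rintro ⟨_, n, rfl⟩
    simp only [map_pow, polyTo_X]
    exact (tD_unit f).pow n)

lemma fromTor_algebraMap (p : A[X]) : fromTor (k := k) f (algebraMap _ _ p) = polyTo (k := k) f p := by
  simp [fromTor]

lemma tor_hom_ext {S : Type} [CommRing S] [Algebra k S] {ψ ψ' : Tor A →ₐ[k] S}
    (h1 : ∀ a, ψ (iT k A a) = ψ' (iT k A a)) (h2 : ψ (tT A) = ψ' (tT A)) : ψ = ψ' := by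
  have h3 : ψ.comp (IsScalarTower.toAlgHom k A[X] (Tor A)) =
      ψ'.comp (IsScalarTower.toAlgHom k A[X] (Tor A)) := by
    apply Polynomial.algHom_ext'
    · apply AlgHom.ext
      intro a
      exact h1 a
    · exact h2
  have h4 : (ψ : Tor A →+* S).comp (algebraMap A[X] (Tor A)) =
      (ψ' : Tor A →+* S).comp (algebraMap A[X] (Tor A)) := by
    ext1
    · ext a
      exact h1 a
    · exact h2
  exact AlgHom.coe_ringHom_injective (IsLocalization.ringHom_ext (Submonoid.powers (X : A[X])) h4)

/-- The part `t ≠ 0` of the deformation is a torus over `A`. -/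
noncomputable def eqTor : DT f ≃ₐ[k] Tor A :=
  AlgEquiv.ofAlgHom (toTor f) (fromTor f) (by
    apply tor_hom_ext
    · intro a
      rw [AlgHom.comp_apply, iT_apply, fromTor_algebraMap, polyTo_C, toTor_algebraMap, lamD_i]; rfl
    · rw [AlgHom.comp_apply, tT, fromTor_algebraMap, polyTo_X, toTor_algebraMap, lamD_t]; rfl) (by
    have h4 : (((fromTor (k := k) f).comp (toTor f) : DT f →ₐ[k] DT f) : DT f →+* DT f).comp
        (algebraMap (Dfm f) (DT f)) =
        ((AlgHom.id k (DT f)) : DT f →+* DT f).comp (algebraMap (Dfm f) (DT f)) := by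
      have h5 : ((fromTor (k := k) f).comp (toTor f)).comp (IsScalarTower.toAlgHom k (Dfm f) (DT f)) =
          (AlgHom.id k (DT f)).comp (IsScalarTower.toAlgHom k (Dfm f) (DT f)) := by
        rw [AlgHom.comp_assoc, toTor_comp]
        have hv : fromTor (k := k) f (iT k A f * tI A) = algebraMap _ _ (yD f) := by
          have h6 : algebraMap (Dfm f) (DT f) (tD f) * fromTor (k := k) f (iT k A f * tI A) =
              algebraMap (Dfm f) (DT f) (tD f) * algebraMap _ _ (yD f) := by
            rw [← map_mul, ← iD_self (k := k)]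
            have h7 : fromTor (k := k) f (tT A) = algebraMap (Dfm f) (DT f) (tD f) := by
              rw [tT, fromTor_algebraMap, polyTo_X]
            rw [← h7, ← map_mul, mul_comm (iT k A f), ← mul_assoc, tT_mul, one_mul, iT_apply,
              fromTor_algebraMap, polyTo_C]
          exact (tD_unit f).mul_left_cancel h6
        apply hom_extD
        · intro a
          rw [AlgHom.comp_apply, lamD_i, iT_apply, fromTor_algebraMap, polyTo_C]; rfl
        · rw [AlgHom.comp_apply, lamD_t, tT, fromTor_algebraMap, polyTo_X]; rfl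
        · rw [AlgHom.comp_apply, lamD_y, hv]; rfl
      exact congrArg (fun φ : Dfm f →ₐ[k] DT f => (φ : Dfm f →+* DT f)) h5
    exact AlgHom.coe_ringHom_injective (IsLocalization.ringHom_ext (Submonoid.powers (tD f)) h4))

lemma eqTor_algebraMap (d : Dfm f) : eqTor (k := k) f (algebraMap _ _ d) = lamD (k := k) f d :=
  toTor_algebraMap f d

lemma lamD_injective (hf : ∀ a, f * a = 0 → a = 0) : Function.Injective (lamD (k := k) f) := by
  have h1 : Function.Injective (algebraMap (Dfm f) (DT f)) := by
    rw [injective_iff_map_eq_zero]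
    intro d hd
    rw [IsLocalization.map_eq_zero_iff (Submonoid.powers (tD f))] at hd
    obtain ⟨⟨_, n, rfl⟩, hn⟩ := hd
    change tD f ^ n * d = 0 at hn
    induction n with
    | zero => simpa using hn
    | succ n ih =>
      apply ih
      apply tD_reg f hf
      rw [← mul_assoc, ← pow_succ']
      exact hn
  intro a b hab
  rw [← eqTor_algebraMap, ← eqTor_algebraMap] at hab
  exact h1 ((eqTor (k := k) f).injective hab)

lemma iT_reg (w : A) (hw : ∀ a, w * a = 0 → a = 0) (z : Tor A) (h : iT k A w * z = 0) : z = 0 := by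
  obtain ⟨p, ⟨_, n, rfl⟩, rfl⟩ := IsLocalization.exists_mk'_eq (Submonoid.powers (X : A[X])) z
  rw [iT_apply, IsLocalization.mul_mk'_eq_mk'_of_mul, IsLocalization.mk'_eq_zero_iff] at h
  obtain ⟨⟨_, m, rfl⟩, hm⟩ := h
  rw [IsLocalization.mk'_eq_zero_iff]
  refine ⟨⟨X ^ m, m, rfl⟩, ?_⟩
  change X ^ m * p = 0
  change X ^ m * (C w * p) = 0 at hm
  have h1 : C w * (X ^ m * p) = 0 := by rw [← hm]; ring
  ext i
  have h2 := congrArg (fun p => coeff p i) h1
  simp only [coeff_C_mul, coeff_zero] at h2
  rw [coeff_zero]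
  exact hw _ h2

lemma iD_reg (hf : ∀ a, f * a = 0 → a = 0) (w : A) (hw : ∀ a, w * a = 0 → a = 0) (d : Dfm f)
    (h : iD k f w * d = 0) : d = 0 := by
  apply lamD_injective (k := k) f hf
  rw [map_zero]
  apply iT_reg (k := k) w hw
  rw [← lamD_i (k := k) f w, ← map_mul, h, map_zero]

lemma yD_reg (hf : ∀ a, f * a = 0 → a = 0) (d : Dfm f) (h : yD f * d = 0) : d = 0 := by
  apply iD_reg (k := ℤ) f hf f hf
  rw [iD_self, mul_assoc, h, mul_zero]

end torus

section dom

instance tor_isDomain [IsDomain A] : IsDomain (Tor A) :=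
  IsLocalization.isDomain_localization (powers_le_nonZeroDivisors_of_noZeroDivisors X_ne_zero)

lemma isDomain_Dfm [IsDomain A] (f : A) (hf : f ≠ 0) : IsDomain (Dfm f) := by
  have h := lamD_injective (k := ℤ) f (fun a ha => (mul_eq_zero.1 ha).resolve_left hf)
  exact h.isDomain (lamD (k := ℤ) f).toRingHom

instance finiteType_Dfm [Algebra.FiniteType k A] (f : A) : Algebra.FiniteType k (Dfm f) :=
  Algebra.FiniteType.of_surjective (A := A[X][X])
    (show A[X][X] →ₐ[k] A[X][X] ⧸ Ideal.span {gD f} from Ideal.Quotient.mkₐ k (Ideal.span {gD f}))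
    (Ideal.Quotient.mk_surjective (I := Ideal.span {gD f}))

end dom

end Q54.PX
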