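import Mathlib

/-!
# Smooth hypersurfaces from derivations
-/

set_option autoImplicit false

namespace Q54.PX

variable {k P : Type} [CommRing k] [CommRing P] [Algebra k P]

/-- If `P` is formally smooth and a derivation takes a value at `g` which is `1` modulo `g` then `P / g` is formally
smooth. -/
theorem smooth_of_der [Algebra.FormallySmooth k P] (g : P) (δ : Derivation k P P) (a : P)
    (h : δ g = 1 + g * a) : Algebra.FormallySmooth k (P ⧸ Ideal.span {g}) := by
  let I : Ideal P := Ideal.span {g}
  let π : P →ₐ[k] P ⧸ I := Ideal.Quotient.mkₐ k I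
  have hker : RingHom.ker π.toRingHom = I := Ideal.Quotient.mkₐ_ker k I
  let J : Ideal P := RingHom.ker π.toRingHom ^ 2
  have hJ : g * g ∈ J := by
    change g * g ∈ RingHom.ker π.toRingHom ^ 2
    rw [hker, pow_two]
    exact Ideal.mul_mem_mul (Ideal.mem_span_singleton_self g) (Ideal.mem_span_singleton_self g)
  have hgg : (Ideal.Quotient.mk J g) * (Ideal.Quotient.mk J g) = 0 := by
    rw [← map_mul]
    exact Ideal.Quotient.eq_zero_iff_mem.2 hJ
  let σ₀ : P →ₐ[k] P ⧸ J :=
    { toFun := fun p => Ideal.Quotient.mk J (p - g * δ p)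
      map_one' := by simp
      map_zero' := by simp
      map_add' := fun x y => by simp only [map_add, mul_add, map_sub, map_mul]; ring
      map_mul' := fun x y => by
        simp only [Derivation.leibniz, smul_eq_mul, map_add, map_sub, map_mul]
        linear_combination (-(Ideal.Quotient.mk J (δ x)) * Ideal.Quotient.mk J (δ y)) * hgg
      commutes' := fun r => by
        simp only [Derivation.map_algebraMap, mul_zero, sub_zero]
        rfl }
  have hσ : ∀ p ∈ I, σ₀ p = 0 := by
    intro p hp
    obtain ⟨c, rfl⟩ := Ideal.mem_span_singleton'.1 hp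
    rw [map_mul]
    have : σ₀ g = 0 := by
      change Ideal.Quotient.mk J (g - g * δ g) = 0
      rw [h]
      simp only [map_sub, map_mul, map_add, map_one]
      linear_combination (-(Ideal.Quotient.mk J a)) * hgg
    rw [this, mul_zero]
  let σ : P ⧸ I →ₐ[k] P ⧸ J := Ideal.Quotient.liftₐ I σ₀ hσ
  refine Algebra.FormallySmooth.of_split π σ ?_
  apply Ideal.Quotient.algHom_ext
  apply AlgHom.ext
  intro p
  change (AlgHom.kerSquareLift π) (σ₀ p) = π p
  change π (p - g * δ p) = π p
  have : π g = 0 := Ideal.Quotient.eq_zero_iff_mem.2 (Ideal.mem_span_singleton_self g)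
  rw [map_sub, map_mul, this, zero_mul, sub_zero]

end Q54.PX
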