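import Pool.Agent.Q54.PX.Reg
import Pool.Agent.Q54.PX.Sm

/-!
# Smoothness of the affine deformation
-/

set_option autoImplicit false

namespace Q54.PX

open Polynomial

variable {k A : Type} [CommRing k] [CommRing A] [Algebra k A]

section smooth

variable {S : Type} [CommRing S] [Algebra k S]

/-- A section built from a derivation. -/
noncomputable def phiS (m : A →ₐ[k] S) (g : S) (hg : g * g = 0) (δ : Derivation k A A) : A →ₐ[k] S :=
  { toFun := fun p => m p - g * m (δ p)
    map_one' := by simp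
    map_zero' := by simp
    map_add' := fun x y => by simp only [map_add, mul_add]; ring
    map_mul' := fun x y => by
      simp only [Derivation.leibniz, smul_eq_mul, map_add, map_mul]
      linear_combination (-(m (δ x)) * m (δ y)) * hg
    commutes' := fun r => by
      simp only [Derivation.map_algebraMap, mul_zero, sub_zero, map_zero, AlgHom.commutes] }

lemma phiS_apply (m : A →ₐ[k] S) (g : S) (hg : g * g = 0) (δ : Derivation k A A) (p : A) :
    phiS m g hg δ p = m p - g * m (δ p) := rfl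

/-- The section on the polynomial ring. -/
noncomputable def sigS (m : A →ₐ[k] S) (g : S) (hg : g * g = 0) (δ : Derivation k A A) (a : A) (τ υ : S) :
    A[X][X] →ₐ[k] S :=
  evD (phiS m g hg δ) (τ - g * (m a * τ)) υ

lemma sigS_g (f : A) (m : A →ₐ[k] S) (g : S) (hg : g * g = 0) (δ : Derivation k A A) (a : A)
    (τ υ : S) (h : δ f = 1 + f * a) (h2 : g = m f - τ * υ) : sigS m g hg δ a τ υ (gD f) = 0 := by
  have h1 : sigS m g hg δ a τ υ (gD f) = phiS m g hg δ f - (τ - g * (m a * τ)) * υ := by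
    rw [sigS, gD, map_sub, map_mul, evD_CC, evD_CX, evD_X]
  rw [h1, phiS_apply, h]
  simp only [map_add, map_mul, map_one]
  linear_combination (g * m a - 1) * h2 - m a * hg

/-- The general criterion: if `p : P → B` is surjective and the square of its kernel is the kernel of `q : P → S`, a
section of `S → B` gives smoothness. -/
lemma smooth_of_sec {P : Type} [CommRing P] [Algebra k P] [Algebra.FormallySmooth k P] (g : P)
    (s : P →ₐ[k] P ⧸ RingHom.ker (Ideal.Quotient.mkₐ k (Ideal.span {g})).toRingHom ^ 2) (hs : s g = 0)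
    (hc : (Ideal.Quotient.mkₐ k (Ideal.span {g})).kerSquareLift.comp s = Ideal.Quotient.mkₐ k (Ideal.span {g})) :
    Algebra.FormallySmooth k (P ⧸ Ideal.span {g}) := by
  refine Algebra.FormallySmooth.of_split (Ideal.Quotient.mkₐ k (Ideal.span {g}))
    (Ideal.Quotient.liftₐ (Ideal.span {g}) s (by
      intro p hp
      obtain ⟨c, rfl⟩ := Ideal.mem_span_singleton'.1 hp
      rw [map_mul, hs, mul_zero])) ?_
  apply Ideal.Quotient.algHom_ext
  exact hc

lemma mk_sq {P : Type} [CommRing P] [Algebra k P] (g : P) :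
    Ideal.Quotient.mkₐ k (RingHom.ker (Ideal.Quotient.mkₐ k (Ideal.span {g})).toRingHom ^ 2) g *
      Ideal.Quotient.mkₐ k (RingHom.ker (Ideal.Quotient.mkₐ k (Ideal.span {g})).toRingHom ^ 2) g = 0 := by
  rw [← map_mul]
  apply Ideal.Quotient.eq_zero_iff_mem.2
  have hker : RingHom.ker (Ideal.Quotient.mkₐ k (Ideal.span {g})).toRingHom = Ideal.span {g} :=
    Ideal.Quotient.mkₐ_ker k _
  rw [hker, pow_two]
  exact Ideal.mul_mem_mul (Ideal.mem_span_singleton_self _) (Ideal.mem_span_singleton_self _)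

lemma mk_self {P : Type} [CommRing P] [Algebra k P] (g : P) :
    Ideal.Quotient.mkₐ k (Ideal.span {g}) g = 0 :=
  Ideal.Quotient.eq_zero_iff_mem.2 (Ideal.mem_span_singleton_self _)

lemma sq_mk {P : Type} [CommRing P] [Algebra k P] (g p : P) :
    (Ideal.Quotient.mkₐ k (Ideal.span {g})).kerSquareLift
      (Ideal.Quotient.mkₐ k (RingHom.ker (Ideal.Quotient.mkₐ k (Ideal.span {g})).toRingHom ^ 2) p) =
      Ideal.Quotient.mkₐ k (Ideal.span {g}) p := rfl

end smooth

section main

/-- The smoothness of `P / (f - t y)` for a smooth algebra `P` with the universal property of `A[t, y]`. -/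
theorem smooth_univ {P : Type} [CommRing P] [Algebra k P] [Algebra.FormallySmooth k P] (cc : A →ₐ[k] P) (t y : P)
    (hl : ∀ (S : Type) [CommRing S] [Algebra k S] (φ : A →ₐ[k] S) (τ υ : S), ∃ ψ : P →ₐ[k] S,
      (∀ b, ψ (cc b) = φ b) ∧ ψ t = τ ∧ ψ y = υ)
    (he : ∀ (S : Type) [CommRing S] [Algebra k S] (ψ ψ' : P →ₐ[k] S), (∀ b, ψ (cc b) = ψ' (cc b)) →
      ψ t = ψ' t → ψ y = ψ' y → ψ = ψ')
    (f : A) (δ : Derivation k A A) (a : A) (h : δ f = 1 + f * a) :
    Algebra.FormallySmooth k (P ⧸ Ideal.span {cc f - t * y}) := by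
  set g : P := cc f - t * y with hg
  set q : P →ₐ[k] P ⧸ RingHom.ker (Ideal.Quotient.mkₐ k (Ideal.span {g})).toRingHom ^ 2 :=
    Ideal.Quotient.mkₐ k _ with hq
  have hsq : q g * q g = 0 := mk_sq g
  obtain ⟨s, hs1, hs2, hs3⟩ := hl _ (phiS (q.comp cc) (q g) hsq δ)
    (q t - q g * (q (cc a) * q t)) (q y)
  refine smooth_of_sec g s ?_ ?_
  · have h1 : s g = phiS (q.comp cc) (q g) hsq δ f - (q t - q g * (q (cc a) * q t)) * q y := by
      rw [← hs1, ← hs2, ← hs3, ← map_mul, ← map_sub]
    rw [h1, phiS_apply, h]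
    have h2 : q g = q (cc f) - q t * q y := by rw [← map_mul, ← map_sub]
    simp only [AlgHom.comp_apply, map_add, map_mul, map_one]
    linear_combination (q g * q (cc a) - 1) * h2 - q (cc a) * hsq
  · have h3 : ∀ p, (Ideal.Quotient.mkₐ k (Ideal.span {g})).kerSquareLift (q p) =
        Ideal.Quotient.mkₐ k (Ideal.span {g}) p := fun p => sq_mk g p
    have h4 := mk_self (k := k) g
    apply he
    · intro b
      rw [AlgHom.comp_apply, hs1, phiS_apply, AlgHom.comp_apply, map_sub, map_mul, h3, h3, h4, zero_mul, sub_zero]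
    · rw [AlgHom.comp_apply, hs2, map_sub, map_mul, h3, h3, h4, zero_mul, sub_zero]
    · rw [AlgHom.comp_apply, hs3, h3]

/-- The deformation `f = t y` is smooth if `A` and `A / f` are smooth. -/
theorem smooth_Dfm [Algebra.FormallySmooth k A] (f : A) (hf : ∀ a, f * a = 0 → a = 0)
    [Algebra.FormallySmooth k (A ⧸ Ideal.span {f})] : Algebra.FormallySmooth k (Dfm f) := by
  obtain ⟨δ, a, h⟩ := exists_der (k := k) f hf
  have h1 : Algebra.FormallySmooth k A[X] := Algebra.FormallySmooth.comp k A A[X]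
  have h2 : Algebra.FormallySmooth k A[X][X] := Algebra.FormallySmooth.comp k A[X] A[X][X]
  refine smooth_univ (P := A[X][X]) ((CAlgHom (R := k) (A := A[X])).comp CAlgHom) (C X) X ?_ ?_ f δ a h
  · intro S _ _ φ τ υ
    exact ⟨evD φ τ υ, evD_CC φ τ υ, evD_CX φ τ υ, evD_X φ τ υ⟩
  · intro S _ _ ψ ψ' h3 h4 h5
    apply Polynomial.algHom_ext'
    · apply Polynomial.algHom_ext'
      · apply AlgHom.ext
        intro b
        exact h3 b
      · exact h4
    · exact h5

end main

end Q54.PX
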