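import Pool.Agent.Q54.PX.SmD
import Pool.Agent.Q54.PX.Defs

/-!
# Simple normal crossings on the affine deformation
-/

set_option autoImplicit false

namespace Q54.PX

open Polynomial

variable {k A : Type} [CommRing k] [CommRing A] [Algebra k A]

lemma reg_of_ker {R S : Type} [CommRing R] [CommRing S] [Algebra k R] [Algebra k S] (Φ : R →ₐ[k] S) (I : Ideal R)
    (hk : RingHom.ker Φ = I) (r : R) (hr : ∀ z, Φ r * z = 0 → z = 0) (a : R) (h : r * a ∈ I) : a ∈ I := by
  rw [← hk, RingHom.mem_ker] at h ⊢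
  apply hr
  rw [← map_mul, h]

lemma evY_surj (f : A) (J : Ideal A) (hJ : f ∈ J) : Function.Surjective (evY (k := k) f J hJ) := by
  intro p
  induction p using Polynomial.induction_on' with
  | add p q hp hq =>
    obtain ⟨a, rfl⟩ := hp
    obtain ⟨b, rfl⟩ := hq
    exact ⟨a + b, map_add _ _ _⟩
  | monomial n a =>
    obtain ⟨a, rfl⟩ := Ideal.Quotient.mk_surjective a
    refine ⟨iD k f a * tD f ^ n, ?_⟩
    rw [map_mul, map_pow, evY_i, evY_t, C_mul_X_pow_eq_monomial]

lemma evT_surj (f : A) (J : Ideal A) (hJ : f ∈ J) : Function.Surjective (evT (k := k) f J hJ) := by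
  intro p
  induction p using Polynomial.induction_on' with
  | add p q hp hq =>
    obtain ⟨a, rfl⟩ := hp
    obtain ⟨b, rfl⟩ := hq
    exact ⟨a + b, map_add _ _ _⟩
  | monomial n a =>
    obtain ⟨a, rfl⟩ := Ideal.Quotient.mk_surjective a
    refine ⟨iD k f a * yD f ^ n, ?_⟩
    rw [map_mul, map_pow, evT_i, evT_y, C_mul_X_pow_eq_monomial]

lemma evZ_surj (f : A) (J : Ideal A) (hJ : f ∈ J) : Function.Surjective (evZ (k := k) f J hJ) := by
  intro p
  obtain ⟨a, rfl⟩ := Ideal.Quotient.mk_surjective p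
  exact ⟨iD k f a, evZ_i f J hJ a⟩

/-- Generation of the coordinate ring. -/
lemma Dfm_induction (f : A) (p : Dfm f → Prop) (hi : ∀ a, p (iD k f a)) (ht : p (tD f)) (hy : p (yD f))
    (hadd : ∀ a b, p a → p b → p (a + b)) (hmul : ∀ a b, p a → p b → p (a * b)) (d : Dfm f) : p d := by
  obtain ⟨q, rfl⟩ := Ideal.Quotient.mk_surjective (I := Ideal.span {gD f}) d
  have hpow : ∀ (z : Dfm f), p z → ∀ n, p (z ^ n) := by
    intro z hz n
    induction n with
    | zero =>
      rw [pow_zero]
      have := hi 1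
      rwa [map_one] at this
    | succ n ih =>
      rw [pow_succ]
      exact hmul _ _ ih hz
  induction q using Polynomial.induction_on' with
  | add q r hq hr => exact hadd _ _ hq hr
  | monomial n a =>
    rw [← C_mul_X_pow_eq_monomial]
    refine hmul (Ideal.Quotient.mk (Ideal.span {gD f}) (C a)) _ ?_ (hpow _ hy n)
    induction a using Polynomial.induction_on' with
    | add q r hq hr =>
      have := hadd _ _ hq hr
      rw [map_add]
      exact this
    | monomial m b =>
      rw [← C_mul_X_pow_eq_monomial, C_mul, C_pow]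
      exact hmul (iD k f b) _ (hi b) (hpow _ ht m)

lemma evJ_surj (f : A) (J : Ideal A) : Function.Surjective (evJ (k := k) f J) := by
  intro d
  refine Dfm_induction (k := k) _ (fun d => ∃ a, evJ (k := k) f J a = d) ?_ ?_ ?_ ?_ ?_ d
  · intro a
    obtain ⟨a, rfl⟩ := Ideal.Quotient.mk_surjective a
    exact ⟨iD k f a, evJ_i f J a⟩
  · exact ⟨tD f, evJ_t f J⟩
  · exact ⟨yD f, evJ_y f J⟩
  · rintro _ _ ⟨a, rfl⟩ ⟨b, rfl⟩
    exact ⟨a + b, map_add _ _ _⟩
  · rintro _ _ ⟨a, rfl⟩ ⟨b, rfl⟩
    exact ⟨a * b, map_mul _ _ _⟩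

section mods

variable (f : A) (J : Ideal A)

lemma mk_reg (w : A) (h : ∀ a, w * a ∈ J → a ∈ J) (z : A ⧸ J) (hz : Ideal.Quotient.mk J w * z = 0) : z = 0 := by
  obtain ⟨a, rfl⟩ := Ideal.Quotient.mk_surjective z
  rw [← map_mul, Ideal.Quotient.eq_zero_iff_mem] at hz
  exact Ideal.Quotient.eq_zero_iff_mem.2 (h a hz)

lemma C_reg {B : Type} [CommRing B] (w : B) (h : ∀ a, w * a = 0 → a = 0) (z : B[X]) (hz : C w * z = 0) :
    z = 0 := by
  ext i
  have h2 := congrArg (fun p => coeff p i) hz
  simp only [coeff_C_mul, coeff_zero] at h2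
  rw [coeff_zero]
  exact h _ h2

lemma X_reg' {B : Type} [CommRing B] (z : B[X]) (hz : X * z = 0) : z = 0 := by
  ext i
  have h2 := congrArg (fun p => coeff p (i + 1)) hz
  simpa [coeff_X_mul] using h2

lemma smooth_mod [Algebra.FormallySmooth k (A ⧸ J)] (hf : ∀ a, f * a ∈ J → a ∈ J)
    (h2 : Algebra.FormallySmooth k (A ⧸ (J ⊔ Ideal.span {f}))) :
    Algebra.FormallySmooth k (Dfm f ⧸ J.map (iD k f)) := by
  have h3 : Algebra.FormallySmooth k ((A ⧸ J) ⧸ Ideal.span {Ideal.Quotient.mk J f}) := by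
    have e : (A ⧸ (J ⊔ Ideal.span {f})) ≃ₐ[k] (A ⧸ J) ⧸ Ideal.span {Ideal.Quotient.mk J f} := by
      refine ((DoubleQuot.quotQuotEquivQuotSupₐ k J (Ideal.span {f})).symm).trans
        (Ideal.quotientEquivAlgOfEq k ?_)
      rw [Ideal.map_span, Set.image_singleton]
      rfl
    exact Algebra.FormallySmooth.of_equiv e
  have h4 : Algebra.FormallySmooth k (Dfm (Ideal.Quotient.mk J f)) :=
    smooth_Dfm (k := k) (Ideal.Quotient.mk J f) (mk_reg J f hf)
  exact Algebra.FormallySmooth.of_equiv (quotEquiv (evJ (k := k) f J) (evJ_surj f J) _ (ker_evJ f J)).symm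

/-- The ideal generated by `J` and `f`. -/
abbrev Jf : Ideal A := J ⊔ Ideal.span {f}

lemma f_mem : f ∈ Jf f J := Ideal.mem_sup_right (Ideal.mem_span_singleton_self f)

lemma map_Jf_y : (Jf f J).map (iD k f) ⊔ Ideal.span {yD f} = J.map (iD k f) ⊔ Ideal.span {yD f} := by
  rw [Ideal.map_sup, Ideal.map_span, Set.image_singleton, iD_self]
  apply le_antisymm
  · refine sup_le (sup_le le_sup_left ?_) le_sup_right
    rw [Ideal.span_singleton_le_iff_mem]
    exact Ideal.mem_sup_right (Ideal.mul_mem_left _ _ (Ideal.mem_span_singleton_self _))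
  · exact sup_le_sup_right le_sup_left _

lemma map_Jf_t : (Jf f J).map (iD k f) ⊔ Ideal.span {tD f} = J.map (iD k f) ⊔ Ideal.span {tD f} := by
  rw [Ideal.map_sup, Ideal.map_span, Set.image_singleton, iD_self]
  apply le_antisymm
  · refine sup_le (sup_le le_sup_left ?_) le_sup_right
    rw [Ideal.span_singleton_le_iff_mem]
    exact Ideal.mem_sup_right (Ideal.mul_mem_right _ _ (Ideal.mem_span_singleton_self _))
  · exact sup_le_sup_right le_sup_left _

lemma ker_y : RingHom.ker (evY (k := k) f (Jf f J) (f_mem f J)) = J.map (iD k f) ⊔ Ideal.span {yD f} :=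
  (ker_evY f _ _).trans (map_Jf_y f J)

lemma ker_t : RingHom.ker (evT (k := k) f (Jf f J) (f_mem f J)) = J.map (iD k f) ⊔ Ideal.span {tD f} :=
  (ker_evT f _ _).trans (map_Jf_t f J)

lemma ker_z : RingHom.ker (evZ (k := k) f (Jf f J) (f_mem f J)) =
    J.map (iD k f) ⊔ Ideal.span {tD f} ⊔ Ideal.span {yD f} := by
  rw [ker_evZ, map_Jf_t]

lemma smooth_y (h2 : Algebra.FormallySmooth k (A ⧸ Jf f J)) :
    Algebra.FormallySmooth k (Dfm f ⧸ (J.map (iD k f) ⊔ Ideal.span {yD f})) := by
  have h3 : Algebra.FormallySmooth k (A ⧸ Jf f J)[X] := Algebra.FormallySmooth.comp k (A ⧸ Jf f J) _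
  exact Algebra.FormallySmooth.of_equiv (quotEquiv (evY (k := k) f (Jf f J) (f_mem f J))
    (evY_surj f _ _) _ (ker_y f J)).symm

lemma smooth_t (h2 : Algebra.FormallySmooth k (A ⧸ Jf f J)) :
    Algebra.FormallySmooth k (Dfm f ⧸ (J.map (iD k f) ⊔ Ideal.span {tD f})) := by
  have h3 : Algebra.FormallySmooth k (A ⧸ Jf f J)[X] := Algebra.FormallySmooth.comp k (A ⧸ Jf f J) _
  exact Algebra.FormallySmooth.of_equiv (quotEquiv (evT (k := k) f (Jf f J) (f_mem f J))
    (evT_surj f _ _) _ (ker_t f J)).symm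

lemma smooth_z (h2 : Algebra.FormallySmooth k (A ⧸ Jf f J)) :
    Algebra.FormallySmooth k (Dfm f ⧸ (J.map (iD k f) ⊔ Ideal.span {tD f} ⊔ Ideal.span {yD f})) :=
  Algebra.FormallySmooth.of_equiv (quotEquiv (evZ (k := k) f (Jf f J) (f_mem f J))
    (evZ_surj f _ _) _ (ker_z f J)).symm

end mods

section main

variable {ι : Type} (f : A) (w : ι → A)

/-- The family of the equations `w i` and `f`. -/
def withf (o : Option ι) : A := o.elim f w

variable (k) in
/-- The equations of the divisors on the deformation. -/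
noncomputable def withty (o : Option (Option ι)) : Dfm f :=
  o.elim (tD f) fun o => o.elim (yD f) fun i => iD k f (w i)

omit [CommRing A] in
lemma image_withf (s : Finset ι) : withf f w '' ((s.map Function.Embedding.some : Finset (Option ι)) : Set (Option ι)) =
    w '' s := by
  ext a
  simp [withf]

lemma image_withf' [DecidableEq ι] (s : Finset ι) :
    Ideal.span (withf f w '' ((insert none (s.map Function.Embedding.some) : Finset (Option ι)) : Set (Option ι))) =
    Jf f (Ideal.span (w '' s)) := by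
  rw [Finset.coe_insert, Set.image_insert_eq, image_withf, Ideal.span_insert, sup_comm]
  rfl

/-- The part of the index set which comes from `X`. -/
def base (s : Finset (Option (Option ι))) : Finset ι := Finset.eraseNone (Finset.eraseNone s)

lemma mem_base (s : Finset (Option (Option ι))) (i : ι) : i ∈ base s ↔ some (some i) ∈ s := by
  simp [base]

lemma span_withty (s : Finset (Option (Option ι))) : Ideal.span (withty k f w '' s) =
    (Ideal.span (w '' (base s))).map (iD k f) ⊔ (Ideal.span {d | d = tD f ∧ none ∈ s}) ⊔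
      (Ideal.span {d | d = yD f ∧ some none ∈ s}) := by
  rw [Ideal.map_span, ← Ideal.span_union, ← Ideal.span_union]
  congr 1
  ext d
  simp only [Set.mem_image, Finset.mem_coe, Set.mem_union, Set.mem_ofPred_eq]
  constructor
  · rintro ⟨_ | _ | i, hs, rfl⟩
    · exact Or.inl (Or.inr ⟨rfl, hs⟩)
    · exact Or.inr ⟨rfl, hs⟩
    · exact Or.inl (Or.inl ⟨w i, ⟨i, (mem_base s i).2 hs, rfl⟩, rfl⟩)
  · rintro ((⟨_, ⟨i, hi, rfl⟩, rfl⟩ | ⟨rfl, hs⟩) | ⟨rfl, hs⟩)
    · exact ⟨some (some i), (mem_base s i).1 hi, rfl⟩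
    · exact ⟨none, hs, rfl⟩
    · exact ⟨some none, hs, rfl⟩

/-- The divisors `t = 0`, `y = 0` and `w i = 0` on the deformation `f = t y` have simple normal crossings if the
divisors `f = 0` and `w i = 0` have. -/
theorem snc_Dfm (h : Snc k (withf f w)) : Snc k (withty k f w) := by
  classical
  intro s
  set J := Ideal.span (w '' (base s)) with hJ
  have h1 := h ((base s).map Function.Embedding.some)
  have h2 := h (insert none ((base s).map Function.Embedding.some))
  rw [image_withf, ← hJ] at h1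
  rw [image_withf', ← hJ] at h2
  have hf : ∀ a, f * a ∈ J → a ∈ J := h1.2 none (by simp)
  have hw1 : ∀ i ∉ base s, ∀ a, w i * a ∈ J → a ∈ J := fun i hi => h1.2 (some i) (by simpa using hi)
  have hw2 : ∀ i ∉ base s, ∀ a, w i * a ∈ Jf f J → a ∈ Jf f J := fun i hi => h2.2 (some i) (by simpa using hi)
  have hs1 := h1.1
  have hs2 := h2.1
  rw [span_withty, ← hJ]
  by_cases ht : none ∈ s <;> by_cases hy : some none ∈ s
  · have e1 : {d | d = tD f ∧ none ∈ s} = {tD f} := by ext; simp [ht]
    have e2 : {d | d = yD f ∧ some none ∈ s} = {yD f} := by ext; simp [hy]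
    rw [e1, e2]
    refine ⟨smooth_z f J hs2, ?_⟩
    rintro (_ | _ | i) hi a ha
    · exact absurd ht hi
    · exact absurd hy hi
    · refine reg_of_ker _ _ (ker_z (k := k) f J) _ ?_ a ha
      intro z hz
      change evZ (k := k) f (Jf f J) _ (iD k f (w i)) * z = 0 at hz
      rw [evZ_i] at hz
      exact mk_reg _ _ (hw2 i (fun h => hi ((mem_base s i).1 h))) z hz
  · have e1 : {d | d = tD f ∧ none ∈ s} = {tD f} := by ext; simp [ht]
    have e2 : {d | d = yD f ∧ some none ∈ s} = ∅ := by ext; simp [hy]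
    rw [e1, e2, Ideal.span_empty, sup_bot_eq]
    refine ⟨smooth_t f J hs2, ?_⟩
    rintro (_ | _ | i) hi a ha
    · exact absurd ht hi
    · refine reg_of_ker _ _ (ker_t (k := k) f J) _ ?_ a ha
      intro z hz
      change evT (k := k) f (Jf f J) _ (yD f) * z = 0 at hz
      rw [evT_y] at hz
      exact X_reg' z hz
    · refine reg_of_ker _ _ (ker_t (k := k) f J) _ ?_ a ha
      intro z hz
      change evT (k := k) f (Jf f J) _ (iD k f (w i)) * z = 0 at hz
      rw [evT_i] at hz
      exact C_reg _ (mk_reg _ _ (hw2 i (fun h => hi ((mem_base s i).1 h)))) z hz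
  · have e1 : {d | d = tD f ∧ none ∈ s} = ∅ := by ext; simp [ht]
    have e2 : {d | d = yD f ∧ some none ∈ s} = {yD f} := by ext; simp [hy]
    rw [e1, e2, Ideal.span_empty, sup_bot_eq]
    refine ⟨smooth_y f J hs2, ?_⟩
    rintro (_ | _ | i) hi a ha
    · refine reg_of_ker _ _ (ker_y (k := k) f J) _ ?_ a ha
      intro z hz
      change evY (k := k) f (Jf f J) _ (tD f) * z = 0 at hz
      rw [evY_t] at hz
      exact X_reg' z hz
    · exact absurd hy hi
    · refine reg_of_ker _ _ (ker_y (k := k) f J) _ ?_ a ha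
      intro z hz
      change evY (k := k) f (Jf f J) _ (iD k f (w i)) * z = 0 at hz
      rw [evY_i] at hz
      exact C_reg _ (mk_reg _ _ (hw2 i (fun h => hi ((mem_base s i).1 h)))) z hz
  · have e1 : {d | d = tD f ∧ none ∈ s} = ∅ := by ext; simp [ht]
    have e2 : {d | d = yD f ∧ some none ∈ s} = ∅ := by ext; simp [hy]
    rw [e1, e2, Ideal.span_empty, sup_bot_eq, sup_bot_eq]
    refine ⟨smooth_mod f J hf hs2, ?_⟩
    have hf' := mk_reg J f hf
    rintro (_ | _ | i) hi a ha
    · refine reg_of_ker _ _ (ker_evJ (k := k) f J) _ ?_ a ha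
      intro z hz
      change evJ (k := k) f J (tD f) * z = 0 at hz
      rw [evJ_t] at hz
      exact tD_reg _ hf' z hz
    · refine reg_of_ker _ _ (ker_evJ (k := k) f J) _ ?_ a ha
      intro z hz
      change evJ (k := k) f J (yD f) * z = 0 at hz
      rw [evJ_y] at hz
      exact yD_reg _ hf' z hz
    · refine reg_of_ker _ _ (ker_evJ (k := k) f J) _ ?_ a ha
      intro z hz
      change evJ (k := k) f J (iD k f (w i)) * z = 0 at hz
      rw [evJ_i] at hz
      exact iD_reg (k := k) _ hf' _ (mk_reg _ _ (hw1 i (fun h => hi ((mem_base s i).1 h)))) z hz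

end main

end Q54.PX
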