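import Pool.Agent.Q54.PX.Thy

/-!
# The cohomology of the affine deformation
-/

set_option autoImplicit false
set_option linter.unusedSectionVars false

universe v u

namespace Q54.PX

open CategoryTheory Limits Polynomial

variable {k : Type} [Field k]

section alg

variable {A : Type} [CommRing A] [Algebra k A] [Algebra.FiniteType k A]

lemma cT_eq : cT k (A := A) = iT k A := rfl

/-- Evaluation at `1` on the torus. -/
noncomputable def evL : Tor A →ₐ[k] A :=
  IsLocalization.liftAlgHom (M := Submonoid.powers (X : A[X])) (f := evA (k := k) (A := A) 1) (by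
    rintro ⟨_, n, rfl⟩
    simp only [map_pow, evA_X, map_one, one_pow]
    exact isUnit_one)

lemma evL_algebraMap (p : A[X]) : evL (k := k) (algebraMap _ _ p) = evA (k := k) 1 p := by
  simp [evL]

lemma evL_i (a : A) : evL (k := k) (iT k A a) = a := by
  rw [iT_apply, evL_algebraMap, evA_C]

lemma evL_t : evL (k := k) (tT A) = 1 := by
  rw [tT, evL_algebraMap, evA_X, map_one]

lemma evL_I : evL (k := k) (tI A) = 1 := by
  have h := congrArg (evL (k := k)) (tT_mul (A := A))
  rwa [map_mul, evL_t, one_mul, map_one] at h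

lemma evL_surj : Function.Surjective (evL (k := k) (A := A)) := fun a => ⟨iT k A a, evL_i a⟩

lemma ker_evL : RingHom.ker (evL (k := k) (A := A)) = Ideal.span {tT A - 1} := by
  have ht : Ideal.Quotient.mk (Ideal.span {tT A - 1}) (tT A) = 1 := by
    rw [← map_one (Ideal.Quotient.mk (Ideal.span {tT A - 1})), Ideal.Quotient.eq]
    exact Ideal.mem_span_singleton_self _
  refine ker_of_inv _ _ ((Ideal.Quotient.mkₐ k _).comp (iT k A)) ?_ ?_
  · apply tor_hom_ext
    · intro a
      simp only [AlgHom.comp_apply, evL_i]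
    · simp only [AlgHom.comp_apply, evL_t, map_one]
      exact ht.symm
  · rw [Ideal.span_singleton_le_iff_mem, RingHom.mem_ker, map_sub, evL_t, map_one, sub_self]

lemma evL_comp (f : A) : (evL (k := k)).comp (lamD (k := k) f) = evOne f := by
  apply hom_extD
  · intro a
    rw [AlgHom.comp_apply, lamD_i, evL_i, evOne_i]
  · rw [AlgHom.comp_apply, lamD_t, evL_t, evOne_t]
  · rw [AlgHom.comp_apply, lamD_y, map_mul, evL_i, evL_I, mul_one, evOne_y]

lemma evOne_comp (f : A) : (evOne (k := k) f).comp (iD k f) = AlgHom.id k A :=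
  AlgHom.ext fun a => evOne_i f a

lemma evL_comp_iT : (evL (k := k) (A := A)).comp (iT k A) = AlgHom.id k A :=
  AlgHom.ext fun a => evL_i a

lemma map_comp_id {R S : Type} [CommRing R] [CommRing S] [Algebra k R] [Algebra k S] (f : R →ₐ[k] S)
    (g : S →ₐ[k] R) (h : g.comp f = AlgHom.id k R) (I : Ideal R) : (I.map f).map g = I := by
  have : (I.map f).map g = I.map (g.comp f) := Ideal.map_map _ _
  rw [this, h]
  exact Ideal.map_id I

lemma map_lamD (f : A) (W : Ideal A) : ((W.map (iD k f)) * Ideal.span {yD f}).map (lamD (k := k) f) =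
    (W * Ideal.span {f}).map (iT k A) := by
  have h1 : (W.map (iD k f)).map (lamD (k := k) f) = W.map (iT k A) := by
    have h2 : (W.map (iD k f)).map (lamD (k := k) f) = W.map ((lamD (k := k) f).comp (iD k f)) := Ideal.map_map _ _
    rw [h2]
    congr 1
    exact AlgHom.ext fun a => lamD_i f a
  rw [Ideal.map_mul, h1, Ideal.map_mul, Ideal.map_span, Ideal.map_span, Set.image_singleton, Set.image_singleton,
    lamD_y, ← Ideal.span_singleton_mul_span_singleton]
  have h3 : Ideal.span {tI A} = ⊤ := by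
    rw [Ideal.span_singleton_eq_top]
    exact IsUnit.of_mul_eq_one _ (by rw [mul_comm]; exact tT_mul)
  rw [h3, Ideal.mul_top]

end alg

section zero

variable {𝒜 : Type u} [Category.{v} 𝒜] [Abelian 𝒜] (Θ : PairTheory k 𝒜)
  {R S : Type} [CommRing R] [Algebra k R] [Algebra.FiniteType k R] [CommRing S] [Algebra k S] [Algebra.FiniteType k S]

/-- Vanishing for a quotient pair. -/
theorem zero_quot (Φ : R →ₐ[k] S) (hs : Function.Surjective Φ) (J : Ideal R) (hk : RingHom.ker Φ = J) (I : Ideal R)
    (I' : Ideal S) (h1 : I.map Φ = I') (j : ℤ) (hz : IsZero ((Θ.H j).obj (pr k I'))) :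
    IsZero ((Θ.H j).obj (pr k (I.map (Ideal.Quotient.mkₐ k J)))) := by
  let q := quotEquiv Φ hs J hk
  have hq : (q : R ⧸ J →ₐ[k] S).comp (Ideal.Quotient.mkₐ k J) = Φ := AlgHom.ext fun x => quotEquiv_mk Φ hs J hk x
  have hm : (I.map (Ideal.Quotient.mkₐ k J)).map (q : R ⧸ J →ₐ[k] S) = I' := by
    rw [← h1, ← hq]
    exact Ideal.map_map _ _
  have e1 : (I.map (Ideal.Quotient.mkₐ k J)).map (q : R ⧸ J →ₐ[k] S) ≤ I'.radical := hm.le.trans Ideal.le_radical
  have e2 : I'.map (q.symm : S →ₐ[k] R ⧸ J) ≤ (I.map (Ideal.Quotient.mkₐ k J)).radical := by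
    rw [← hm]
    refine le_trans (le_of_eq ?_) Ideal.le_radical
    exact map_comp_id _ _ q.symm_comp _
  exact hz.of_iso ((Θ.H j).mapIso (isoPr q _ _ e1 e2))

/-- Replacing an ideal by an equal one. -/
lemma isIso_congr (f : R →ₐ[k] S) {I I' : Ideal R} (e : I = I') (J : Ideal S) (h : I.map f ≤ J.radical)
    (h' : I'.map f ≤ J.radical) (j : ℤ) (hi : IsIso ((Θ.H j).map (mor f I J h))) :
    IsIso ((Θ.H j).map (mor f I' J h')) := by
  subst e
  exact hi

end zero

section step

variable {A : Type} [CommRing A] [Algebra k A] [Algebra.FiniteType k A] {ι : Type} [Fintype ι] (w : ι → A) (f : A)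
  {𝒜 : Type u} [Category.{v} 𝒜] [Abelian 𝒜] (Θ : PairTheory k 𝒜)

lemma ker_y0 : RingHom.ker (evY (k := k) f (Ideal.span {f}) (Ideal.mem_span_singleton_self f)) = Ideal.span {yD f} := by
  rw [ker_evY, Ideal.map_span, Set.image_singleton, iD_self]
  apply sup_eq_right.2
  rw [Ideal.span_singleton_le_iff_mem]
  exact Ideal.mul_mem_left _ _ (Ideal.mem_span_singleton_self _)

lemma ker_t0 : RingHom.ker (evT (k := k) f (Ideal.span {f}) (Ideal.mem_span_singleton_self f)) = Ideal.span {tD f} := by
  rw [ker_evT, Ideal.map_span, Set.image_singleton, iD_self]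
  apply sup_eq_right.2
  rw [Ideal.span_singleton_le_iff_mem]
  exact Ideal.mul_mem_right _ _ (Ideal.mem_span_singleton_self _)

lemma map_evY (W : Ideal A) : (W.map (iD k f)).map (evY (k := k) f (Ideal.span {f}) (Ideal.mem_span_singleton_self f)) =
    (W.map (Ideal.Quotient.mkₐ k (Ideal.span {f}))).map (CAlgHom (R := k)) := by
  have h1 : (W.map (iD k f)).map (evY (k := k) f (Ideal.span {f}) (Ideal.mem_span_singleton_self f)) =
      W.map ((evY (k := k) f (Ideal.span {f}) (Ideal.mem_span_singleton_self f)).comp (iD k f)) := Ideal.map_map _ _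
  have h2 : (W.map (Ideal.Quotient.mkₐ k (Ideal.span {f}))).map (CAlgHom (R := k)) =
      W.map ((CAlgHom (R := k)).comp (Ideal.Quotient.mkₐ k (Ideal.span {f}))) := Ideal.map_map _ _
  rw [h1, h2]
  congr 1
  exact AlgHom.ext fun a => evY_i f _ (Ideal.mem_span_singleton_self f) a

lemma map_evT (W : Ideal A) : (W.map (iD k f)).map (evT (k := k) f (Ideal.span {f}) (Ideal.mem_span_singleton_self f)) =
    (W.map (Ideal.Quotient.mkₐ k (Ideal.span {f}))).map (CAlgHom (R := k)) := by
  have h1 : (W.map (iD k f)).map (evT (k := k) f (Ideal.span {f}) (Ideal.mem_span_singleton_self f)) =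
      W.map ((evT (k := k) f (Ideal.span {f}) (Ideal.mem_span_singleton_self f)).comp (iD k f)) := Ideal.map_map _ _
  have h2 : (W.map (Ideal.Quotient.mkₐ k (Ideal.span {f}))).map (CAlgHom (R := k)) =
      W.map ((CAlgHom (R := k)).comp (Ideal.Quotient.mkₐ k (Ideal.span {f}))) := Ideal.map_map _ _
  rw [h1, h2]
  congr 1
  exact AlgHom.ext fun a => evT_i f _ (Ideal.mem_span_singleton_self f) a

variable (k) in
/-- The ideal of the union of the divisors `w i = 0`. -/
abbrev dv {B : Type} [CommRing B] (v : ι → B) : Ideal B := ∏ i, Ideal.span {v i}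

lemma map_dv : (dv w).map (iD k f) = dv fun i => iD k f (w i) := by
  rw [dv, dv, Ideal.prod_span_singleton, Ideal.prod_span_singleton, Ideal.map_span, Set.image_singleton, map_prod]

/-- The equations of the divisors `w i = 0` and `y = 0` on the deformation. -/
noncomputable def wy (o : Option ι) : Dfm f := o.elim (yD f) fun i => iD k f (w i)

lemma dv_wy : dv (wy (k := k) w f) = (dv w).map (iD k f) * Ideal.span {yD f} := by
  rw [map_dv, dv, Fintype.prod_option, mul_comm]
  rfl

/-- `(Z, Z ∩ Y)` has no cohomology, where `Z` is the divisor `t = 0`. -/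
theorem zero_t (j : ℤ) : IsZero ((Θ.H j).obj (pr k ((dv (wy (k := k) w f)).map
    (Ideal.Quotient.mkₐ k (Ideal.span {tD f}))))) := by
  refine zero_quot Θ (evT f (Ideal.span {f}) (Ideal.mem_span_singleton_self f)) (evT_surj f _ _) _ (ker_t0 f) _
    (((dv w).map (Ideal.Quotient.mkₐ k (Ideal.span {f}))).map (CAlgHom (R := k)) *
      Ideal.span {X - C (algebraMap k _ 0)}) ?_ j (line_zero Θ _ 0 j)
  rw [dv_wy, Ideal.map_mul, map_evT, Ideal.map_span, Set.image_singleton, evT_y, map_zero, map_zero, sub_zero]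

/-- The comparison with the torus. -/
theorem lam_iso (h : Snc k (fun o : Option ι => o.elim f w)) (j : ℤ) :
    IsIso ((Θ.H j).map (mor (lamD (k := k) f) ((dv w).map (iD k f) * Ideal.span {yD f})
      ((dv w * Ideal.span {f}).map (cT k (A := A))) ((map_lamD f (dv w)).le.trans Ideal.le_radical))) := by
  have h1 := Θ.purity (wy (k := k) w f) (tD f) (snc_Dfm f w h) (zero_t w f Θ) j
  have h2 : ((dv w).map (iD k f) * Ideal.span {yD f}) = dv (wy (k := k) w f) := (dv_wy w f).symm
  have e1 : ((dv (wy (k := k) w f)).map (IsScalarTower.toAlgHom k (Dfm f) (DT f))).map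
      (eqTor (k := k) f : DT f →ₐ[k] Tor A) = (dv w * Ideal.span {f}).map (cT k (A := A)) := by
    have h3 : ((dv (wy (k := k) w f)).map (IsScalarTower.toAlgHom k (Dfm f) (DT f))).map
      (eqTor (k := k) f : DT f →ₐ[k] Tor A) = (dv (wy (k := k) w f)).map (lamD (k := k) f) := by
      rw [← toTor_comp]
      exact Ideal.map_map _ _
    rw [h3, dv_wy, map_lamD]
    rfl
  have e2 : ((dv w * Ideal.span {f}).map (cT k (A := A))).map ((eqTor (k := k) f).symm : Tor A →ₐ[k] DT f) =
      (dv (wy (k := k) w f)).map (IsScalarTower.toAlgHom k (Dfm f) (DT f)) := by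
    rw [← e1]
    exact map_comp_id _ _ (eqTor (k := k) f).symm_comp _
  let E : (pr k ((dv (wy (k := k) w f)).map (IsScalarTower.toAlgHom k (Dfm f) (DT f))) : AffPair k) ≅
      pr k ((dv w * Ideal.span {f}).map (cT k (A := A))) :=
    isoPr (eqTor (k := k) f) _ _ (e1.le.trans Ideal.le_radical) (e2.le.trans Ideal.le_radical)
  have h4 : IsIso ((Θ.H j).map (loc k (tD f) (dv (wy (k := k) w f)) ≫ E.hom)) := by
    rw [Functor.map_comp]
    have : IsIso ((Θ.H j).map (loc k (tD f) (dv (wy (k := k) w f)))) := h1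
    infer_instance
  have h5 : ((dv (wy (k := k) w f)).map (lamD (k := k) f)) ≤ ((dv w * Ideal.span {f}).map (cT k (A := A))).radical := by
    rw [dv_wy]
    exact (map_lamD f (dv w)).le.trans Ideal.le_radical
  have h6 : loc k (tD f) (dv (wy (k := k) w f)) ≫ E.hom = mor (lamD (k := k) f) (dv (wy (k := k) w f)) _ h5 := by
    apply AffPair.Hom.ext
    exact toTor_comp f
  rw [h6] at h4
  exact isIso_congr Θ _ h2.symm _ h5 _ j h4

/-- The cohomology of the deformation contains the twisted relative cohomology of the divisor. -/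
theorem step (h : Snc k (fun o : Option ι => o.elim f w)) (j : ℤ) :
    Nonempty (Retract (Θ.T.obj ((Θ.H j).obj (pr k (dv w * Ideal.span {f}))))
      ((Θ.H (j + 1)).obj (pr k ((dv w).map (iD k f))))) := by
  set W := dv w with hW
  set WD := W.map (iD k f) with hWD
  -- restriction to `t = 1`, relative to `y = 0`
  have a1 : (WD * Ideal.span {yD f}).map (evOne (k := k) f) = W * Ideal.span {f} := by
    rw [Ideal.map_mul, Ideal.map_span, Set.image_singleton, evOne_y, hWD, map_comp_id _ _ (evOne_comp f)]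
  have a2 : (W * Ideal.span {f}).map (iD k f) ≤ (WD * Ideal.span {yD f}).radical := by
    refine le_trans ?_ Ideal.le_radical
    rw [Ideal.map_mul, Ideal.map_span, Set.image_singleton, iD_self]
    refine Ideal.mul_mono le_rfl ?_
    rw [Ideal.span_singleton_le_iff_mem]
    exact Ideal.mul_mem_left _ _ (Ideal.mem_span_singleton_self _)
  have s1 := split Θ (evOne (k := k) f) (evOne_surj f) _ (ker_evOne f) (WD * Ideal.span {yD f}) (W * Ideal.span {f})
    (a1.le.trans Ideal.le_radical) (a1.ge.trans Ideal.le_radical) (mor (iD k f) _ _ a2) (by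
      apply AffPair.Hom.ext
      exact evOne_comp f) (j + 1)
  -- the torus
  have b1 : ((W * Ideal.span {f}).map (cT k (A := A))).map (evL (k := k)) = W * Ideal.span {f} :=
    map_comp_id _ _ evL_comp_iT _
  have s2 := split Θ (evL (k := k) (A := A)) evL_surj _ ker_evL ((W * Ideal.span {f}).map (cT k (A := A)))
    (W * Ideal.span {f}) (b1.le.trans Ideal.le_radical) (b1.ge.trans Ideal.le_radical)
    (mor (cT k (A := A)) _ _ Ideal.le_radical) (by
      apply AffPair.Hom.ext
      exact evL_comp_iT) (j + 1)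
  have hiso := lam_iso w f Θ h (j + 1)
  obtain ⟨m1, x1⟩ := s1
  obtain ⟨m2, x2⟩ := s2
  obtain ⟨K⟩ := ker_iso x1 x2 (@asIso _ _ _ _ _ hiso) (by
    rw [asIso_hom, ← Functor.map_comp]
    congr 1
    apply AffPair.Hom.ext
    exact evL_comp f)
  obtain ⟨τ⟩ := Θ.twist j (W * Ideal.span {f})
  -- the divisor `y = 0` relative to `t = 1`
  have c1 : (WD * Ideal.span {tD f - 1}).map (evY (k := k) f (Ideal.span {f}) (Ideal.mem_span_singleton_self f)) =
      (W.map (Ideal.Quotient.mkₐ k (Ideal.span {f}))).map (CAlgHom (R := k)) *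
      Ideal.span {X - C (algebraMap k _ 1)} := by
    rw [Ideal.map_mul, hWD, map_evY, Ideal.map_span, Set.image_singleton, map_sub, evY_t, map_one, map_one, map_one]
  have s3 := wk_iso Θ (evY (k := k) f (Ideal.span {f}) (Ideal.mem_span_singleton_self f)) (evY_surj f _ _) _ (ker_y0 f)
    (WD * Ideal.span {tD f - 1}) _ (c1.le.trans Ideal.le_radical) (c1.ge.trans Ideal.le_radical)
    (line_zero Θ _ 1) (j + 1)
  -- restriction to `t = 1`
  have d1 : WD.map (evOne (k := k) f) = W := map_comp_id _ _ (evOne_comp f) _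
  obtain ⟨m4, x4⟩ := split Θ (evOne (k := k) f) (evOne_surj f) _ (ker_evOne f) WD W
    (d1.le.trans Ideal.le_radical) (d1.ge.trans Ideal.le_radical) (mor (iD k f) _ _ Ideal.le_radical) (by
      apply AffPair.Hom.ext
      exact evOne_comp f) (j + 1)
  obtain ⟨R⟩ := x4.retract ((Θ.H (j + 1)).map (mor (iD k f) W WD Ideal.le_radical)) (by
    rw [← Functor.map_comp, ← CategoryTheory.Functor.map_id]
    congr 1
    apply AffPair.Hom.ext
    exact evOne_comp f)
  have hcomm : WD * Ideal.span {yD f} * Ideal.span {tD f - 1} = WD * Ideal.span {tD f - 1} * Ideal.span {yD f} := by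
    ring
  have F : (Θ.H (j + 1)).obj (pr k (WD * Ideal.span {yD f} * Ideal.span {tD f - 1})) ≅
      (Θ.H (j + 1)).obj (pr k (WD * Ideal.span {tD f - 1} * Ideal.span {yD f})) := eqToIso (by rw [hcomm])
  have G := @asIso _ _ _ _ _ s3
  exact ⟨(retractOfIso (τ.symm ≪≫ K.symm ≪≫ F ≪≫ G)).trans R⟩

/-- The cohomology of the deformation contains the cohomology of the original pair. -/
theorem step0 (W : Ideal A) (j : ℤ) :
    Nonempty (Retract ((Θ.H j).obj (pr k W)) ((Θ.H j).obj (pr k (W.map (iD k f))))) := by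
  have d1 : (W.map (iD k f)).map (evOne (k := k) f) = W := map_comp_id _ _ (evOne_comp f) _
  refine ⟨⟨(Θ.H j).map (mor (iD k f) _ _ Ideal.le_radical),
    (Θ.H j).map (mor (evOne (k := k) f) _ _ (d1.le.trans Ideal.le_radical)), ?_⟩⟩
  rw [← Functor.map_comp, ← CategoryTheory.Functor.map_id]
  congr 1
  apply AffPair.Hom.ext
  exact evOne_comp f

end step

end Q54.PX
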