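import Pool.Agent.Q54.PX.Cat
import Pool.Agent.Q54.PX.Snc

/-!
# Consequences of the axioms
-/

set_option autoImplicit false
set_option linter.unusedSectionVars false

universe v u

namespace Q54.PX

open CategoryTheory Limits Polynomial

variable {k : Type} [Field k]

section prs

variable {R S U : Type} [CommRing R] [Algebra k R] [Algebra.FiniteType k R]
  [CommRing S] [Algebra k S] [Algebra.FiniteType k S] [CommRing U] [Algebra k U] [Algebra.FiniteType k U]

lemma mor_comp (f : R →ₐ[k] S) (g : S →ₐ[k] U) (I : Ideal R) (J : Ideal S) (L : Ideal U) (h1 : I.map f ≤ J.radical)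
    (h2 : J.map g ≤ L.radical) (h3 : I.map (g.comp f) ≤ L.radical) :
    mor f I J h1 ≫ mor g J L h2 = mor (g.comp f) I L h3 := rfl

lemma mor_congr {f g : R →ₐ[k] S} (h : f = g) (I : Ideal R) (J : Ideal S) (h1 : I.map f ≤ J.radical)
    (h2 : I.map g ≤ J.radical) : mor f I J h1 = mor g I J h2 := by
  subst h
  rfl

lemma mor_id (I : Ideal R) (h : I.map (AlgHom.id k R) ≤ I.radical) : mor (AlgHom.id k R) I I h = 𝟙 (pr k I) := rfl

lemma mor_eq_id {f : R →ₐ[k] R} (hf : f = AlgHom.id k R) (I : Ideal R) (h : I.map f ≤ I.radical) :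
    mor f I I h = 𝟙 (pr k I) := by
  subst hf
  rfl

/-- Isomorphic pairs. -/
noncomputable def isoPr (e : R ≃ₐ[k] S) (I : Ideal R) (J : Ideal S) (h1 : I.map (e : R →ₐ[k] S) ≤ J.radical)
    (h2 : J.map (e.symm : S →ₐ[k] R) ≤ I.radical) : (pr k I : AffPair k) ≅ pr k J where
  hom := mor (e : R →ₐ[k] S) I J h1
  inv := mor (e.symm : S →ₐ[k] R) J I h2
  hom_inv_id := by
    apply AffPair.Hom.ext
    exact e.symm_comp
  inv_hom_id := by
    apply AffPair.Hom.ext
    exact e.comp_symm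

end prs

section theory

variable {𝒜 : Type u} [Category.{v} 𝒜] [Abelian 𝒜] (Θ : PairTheory k 𝒜)

section les

variable {R S : Type} [CommRing R] [Algebra k R] [Algebra.FiniteType k R]
  [CommRing S] [Algebra k S] [Algebra.FiniteType k S]

/-- The exact sequence for a surjective homomorphism. -/
theorem les (Φ : R →ₐ[k] S) (hs : Function.Surjective Φ) (J : Ideal R) (hk : RingHom.ker Φ = J) (I : Ideal R)
    (I' : Ideal S) (h1 : I.map Φ ≤ I'.radical) (h2 : I' ≤ (I.map Φ).radical) :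
    ∃ d : ∀ j : ℤ, (Θ.H j).obj (pr k I') ⟶ (Θ.H (j + 1)).obj (pr k (I * J)), ∀ j,
      Ex ((Θ.H j).map (wk k I J)) ((Θ.H j).map (mor Φ I I' h1)) ∧
      Ex ((Θ.H j).map (mor Φ I I' h1)) (d j) ∧
      Ex (d j) ((Θ.H (j + 1)).map (wk k I J)) := by
  let q := quotEquiv Φ hs J hk
  have hq : (q : R ⧸ J →ₐ[k] S).comp (Ideal.Quotient.mkₐ k J) = Φ := AlgHom.ext fun x => quotEquiv_mk Φ hs J hk x
  have hq' : (q.symm : S →ₐ[k] R ⧸ J).comp Φ = Ideal.Quotient.mkₐ k J := by
    rw [← hq, ← AlgHom.comp_assoc]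
    have : (q.symm : S →ₐ[k] R ⧸ J).comp (q : R ⧸ J →ₐ[k] S) = AlgHom.id k _ := q.symm_comp
    rw [this, AlgHom.id_comp]
  have e1 : (I.map (Ideal.Quotient.mkₐ k J)).map (q : R ⧸ J →ₐ[k] S) ≤ I'.radical := by
    refine le_trans (le_of_eq ?_) h1
    rw [← hq]
    exact Ideal.map_map _ _
  have e2 : I'.map (q.symm : S →ₐ[k] R ⧸ J) ≤ (I.map (Ideal.Quotient.mkₐ k J)).radical := by
    refine (Ideal.map_mono h2).trans ((Ideal.map_radical_le _).trans (Ideal.radical_mono (le_of_eq ?_)))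
    rw [← hq']
    exact Ideal.map_map _ _
  let e : (pr k (I.map (Ideal.Quotient.mkₐ k J)) : AffPair k) ≅ pr k I' := isoPr q _ _ e1 e2
  have he : res k I J ≫ e.hom = mor Φ I I' h1 := by
    apply AffPair.Hom.ext
    exact hq
  refine ⟨fun j => (Θ.H j).map e.inv ≫ Θ.δ j I J, fun j => ⟨?_, ?_, ?_⟩⟩
  · refine (Θ.triple j I J).1.transport (Iso.refl _) (Iso.refl _) ((Θ.H j).mapIso e) ?_ ?_
    · simp
    · rw [Iso.refl_hom, Category.id_comp, Functor.mapIso_hom, ← Functor.map_comp, he]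
  · refine (Θ.triple j I J).2.1.transport (Iso.refl _) ((Θ.H j).mapIso e) (Iso.refl _) ?_ ?_
    · rw [Iso.refl_hom, Category.id_comp, Functor.mapIso_hom, ← Functor.map_comp, he]
    · rw [Iso.refl_hom, Category.comp_id, Functor.mapIso_hom, ← Category.assoc, ← Functor.map_comp, e.hom_inv_id,
        CategoryTheory.Functor.map_id, Category.id_comp]
  · refine (Θ.triple j I J).2.2.transport ((Θ.H j).mapIso e) (Iso.refl _) (Iso.refl _) ?_ ?_
    · rw [Iso.refl_hom, Category.comp_id, Functor.mapIso_hom, ← Category.assoc, ← Functor.map_comp, e.hom_inv_id,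
        CategoryTheory.Functor.map_id, Category.id_comp]
    · simp

/-- If the closed part has no cohomology. -/
theorem wk_iso (Φ : R →ₐ[k] S) (hs : Function.Surjective Φ) (J : Ideal R) (hk : RingHom.ker Φ = J) (I : Ideal R)
    (I' : Ideal S) (h1 : I.map Φ ≤ I'.radical) (h2 : I' ≤ (I.map Φ).radical)
    (hz : ∀ j, IsZero ((Θ.H j).obj (pr k I'))) (j : ℤ) : IsIso ((Θ.H j).map (wk k I J)) := by
  obtain ⟨d, hd⟩ := les Θ Φ hs J hk I I' h1 h2
  obtain ⟨i, rfl⟩ : ∃ i : ℤ, j = i + 1 := ⟨j - 1, by ring⟩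
  have m1 := (hd i).2.2.mono ((hz i).eq_of_src _ _)
  have m2 := (hd (i + 1)).1.epi ((hz (i + 1)).eq_of_tgt _ _)
  exact isIso_of_mono_of_epi _

/-- If the restriction has a section. -/
theorem split (Φ : R →ₐ[k] S) (hs : Function.Surjective Φ) (J : Ideal R) (hk : RingHom.ker Φ = J) (I : Ideal R)
    (I' : Ideal S) (h1 : I.map Φ ≤ I'.radical) (h2 : I' ≤ (I.map Φ).radical)
    (s : (pr k I' : AffPair k) ⟶ pr k I) (hsec : s ≫ mor Φ I I' h1 = 𝟙 _) (j : ℤ) :
    Mono ((Θ.H j).map (wk k I J)) ∧ Ex ((Θ.H j).map (wk k I J)) ((Θ.H j).map (mor Φ I I' h1)) := by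
  obtain ⟨d, hd⟩ := les Θ Φ hs J hk I I' h1 h2
  refine ⟨?_, (hd j).1⟩
  obtain ⟨i, rfl⟩ : ∃ i : ℤ, j = i + 1 := ⟨j - 1, by ring⟩
  have h3 : (Θ.H i).map s ≫ (Θ.H i).map (mor Φ I I' h1) = 𝟙 _ := by
    rw [← Functor.map_comp, hsec, CategoryTheory.Functor.map_id]
  have h4 : Epi ((Θ.H i).map (mor Φ I I' h1)) := by
    have : IsSplitEpi ((Θ.H i).map (mor Φ I I' h1)) := ⟨⟨⟨_, h3⟩⟩⟩
    infer_instance
  exact (hd i).2.2.mono (hd i).2.1.eq_zero_of_epi

end les

section line

variable {A : Type} [CommRing A] [Algebra k A] [Algebra.FiniteType k A]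

/-- Evaluation at `a`. -/
noncomputable def evA (a : k) : A[X] →ₐ[k] A :=
  eval₂AlgHom (AlgHom.id k A) (algebraMap k A a) fun _ => Commute.all _ _

lemma evA_C (a : k) (b : A) : evA (k := k) a (C b) = b := by simp [evA]

lemma evA_X (a : k) : evA (k := k) (A := A) a X = algebraMap k A a := by simp [evA]

lemma evA_surj (a : k) : Function.Surjective (evA (k := k) (A := A) a) := fun b => ⟨C b, evA_C a b⟩

lemma ker_evA (a : k) : RingHom.ker (evA (k := k) (A := A) a) = Ideal.span {X - C (algebraMap k A a)} := by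
  ext p
  rw [RingHom.mem_ker, Ideal.mem_span_singleton, dvd_iff_isRoot, IsRoot.def, evA]
  rfl

/-- The affine line modulo a rational point has no cohomology. -/
theorem line_zero (I : Ideal A) (a : k) (j : ℤ) :
    IsZero ((Θ.H j).obj (pr k (I.map (CAlgHom (R := k) (A := A)) * Ideal.span {X - C (algebraMap k A a)}))) := by
  have h0 : (evA (k := k) (A := A) a).comp CAlgHom = AlgHom.id k A := AlgHom.ext fun b => evA_C a b
  have h1 : (I.map (CAlgHom (R := k) (A := A))).map (evA a) = I := by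
    have : (I.map (CAlgHom (R := k) (A := A))).map (evA a) = I.map ((evA (k := k) (A := A) a).comp CAlgHom) :=
      Ideal.map_map _ _
    rw [this, h0]
    exact Ideal.map_id I
  have hle : (I.map (CAlgHom (R := k) (A := A))).map (evA a) ≤ I.radical := h1.le.trans Ideal.le_radical
  have hs : line k I ≫ mor (evA a) _ I hle = 𝟙 (pr k I) := by
    apply AffPair.Hom.ext
    exact h0
  have hsp := split Θ (evA (k := k) (A := A) a) (evA_surj a) _ (ker_evA a) (I.map CAlgHom) I hle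
    (h1.ge.trans Ideal.le_radical) (line k I) hs j
  have hi := Θ.homotopy j I
  have h3 : (Θ.H j).map (line k I) ≫ (Θ.H j).map (mor (evA a) _ I hle) = 𝟙 _ := by
    rw [← Functor.map_comp, hs, CategoryTheory.Functor.map_id]
  have h4 : IsIso ((Θ.H j).map (mor (evA a) _ I hle)) := by
    have h5 : IsIso ((Θ.H j).map (line k I) ≫ (Θ.H j).map (mor (evA a) _ I hle)) := by
      rw [h3]; infer_instance
    exact IsIso.of_isIso_comp_left ((Θ.H j).map (line k I)) _
  have h6 := hsp.2.eq_zero_of_mono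
  have h7 := hsp.1
  rw [h6] at h7
  rw [IsZero.iff_id_eq_zero]
  have h8 : Mono (0 : (Θ.H j).obj (pr k (I.map (CAlgHom (R := k) (A := A)) *
    Ideal.span {X - C (algebraMap k A a)})) ⟶ (Θ.H j).obj (pr k (I.map (CAlgHom (R := k) (A := A))))) := h7
  rw [← cancel_mono (0 : (Θ.H j).obj (pr k (I.map (CAlgHom (R := k) (A := A)) *
    Ideal.span {X - C (algebraMap k A a)})) ⟶ (Θ.H j).obj (pr k (I.map (CAlgHom (R := k) (A := A)))))]
  simp

end line

end theory

end Q54.PX
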